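import Mathlib
import Pool.Agent.H370R2.Digamma

/-!
# The factor of a functional equation of degree `m`: logarithmic derivative near the critical line
-/

set_option autoImplicit false

open Complex Filter Topology Set

namespace Pool.Agent.W188.GLR

/-- the logarithmic derivative of `Γ_ℝ` -/
noncomputable def Lam (w : ℂ) : ℂ := -((Real.log Real.pi : ℝ) : ℂ) / 2 + logDeriv Gamma (w / 2) / 2

lemma gr_ne {w : ℂ} (hw : 0 < w.re) : Gammaℝ w ≠ 0 := Gammaℝ_ne_zero_of_re_pos hw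

lemma gr_hasDeriv {w : ℂ} (hw : 0 < w.re) : HasDerivAt Gammaℝ (Gammaℝ w * Lam w) w := by
  have hw2 : 0 < (w / 2).re := by simp; linarith
  have hne : ∀ n : ℕ, w / 2 ≠ -n := by
    intro n h
    rw [h] at hw2
    simp at hw2
    have : (0 : ℝ) ≤ n := Nat.cast_nonneg n
    linarith
  have hG := (differentiableAt_Gamma (w / 2) hne).hasDerivAt
  have h1 : HasDerivAt (fun z : ℂ => Gamma (z / 2)) (deriv Gamma (w / 2) * (1 / 2)) w := by
    have h2 : HasDerivAt (fun z : ℂ => z / 2) (1 / 2) w := (hasDerivAt_id w).div_const 2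
    exact hG.comp w h2
  have hpi : (Real.pi : ℂ) ≠ 0 := by exact_mod_cast Real.pi_ne_zero
  have h3 : HasDerivAt (fun z : ℂ => (Real.pi : ℂ) ^ (-z / 2))
      ((Real.pi : ℂ) ^ (-w / 2) * Complex.log Real.pi * (-1 / 2)) w := by
    have h4 : HasDerivAt (fun z : ℂ => -z / 2) (-1 / 2) w := (hasDerivAt_id w).neg.div_const 2
    exact h4.const_cpow (Or.inl hpi)
  have h5 := h3.mul h1
  have e1 : (fun z : ℂ => (Real.pi : ℂ) ^ (-z / 2)) * (fun z : ℂ => Gamma (z / 2)) = Gammaℝ := by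
    funext z
    simp only [Pi.mul_apply]
    rw [Gammaℝ_def]
  rw [e1] at h5
  refine h5.congr_deriv ?_
  have hGn : Gamma (w / 2) ≠ 0 := Gamma_ne_zero_of_re_pos hw2
  unfold Lam
  rw [logDeriv_apply, Gammaℝ_def, ofReal_log Real.pi_pos.le]
  field_simp

lemma lam_conj {w : ℂ} (hw : 0 < w.re) : Lam ((starRingEnd ℂ) w) = (starRingEnd ℂ) (Lam w) := by
  have hw2 : 0 < (w / 2).re := by simp; linarith
  unfold Lam
  rw [map_add, map_div₀, map_div₀, map_neg, conj_ofReal, map_ofNat]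
  congr 2
  have e : (starRingEnd ℂ) w / 2 = (starRingEnd ℂ) (w / 2) := by rw [map_div₀, map_ofNat]
  rw [e, logDeriv_apply, logDeriv_apply, Gamma_conj,
    map_div₀ (starRingEnd ℂ) (deriv Gamma (w / 2)) (Gamma (w / 2))]
  congr 1
  -- derivative of the conjugate function
  have h1 : ∀ z : ℂ, Gamma z = (starRingEnd ℂ) (Gamma ((starRingEnd ℂ) z)) := by
    intro z; rw [Gamma_conj, conj_conj]
  have hne : ∀ n : ℕ, w / 2 ≠ -n := by
    intro n h
    rw [h] at hw2
    simp at hw2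
    have : (0 : ℝ) ≤ n := Nat.cast_nonneg n
    linarith
  have hG := (differentiableAt_Gamma (w / 2) hne).hasDerivAt
  have h2 := hG.conj_conj
  have h3 : (fun z => (starRingEnd ℂ) (Gamma ((starRingEnd ℂ) z))) = Gamma := by
    funext z; exact (h1 z).symm
  have h4 : ((starRingEnd ℂ) ∘ Gamma ∘ (starRingEnd ℂ)) = Gamma := h3
  rw [h4] at h2
  exact h2.deriv

/-- the constant -/
noncomputable def Cd (a : ℝ) : ℝ := 4 / a + (∑' n : ℕ, 1 / ((n : ℝ) + 1) ^ 2) + 4

lemma Z2_nonneg : 0 ≤ ∑' n : ℕ, 1 / ((n : ℝ) + 1) ^ 2 := tsum_nonneg fun n => by positivity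

lemma psi_close {z : ℂ} {a : ℝ} (ha : 0 < a) (hz : a ≤ z.re) :
    ‖logDeriv Gamma z - log (z + 2)‖ ≤ 2 / a + ∑' n : ℕ, 1 / ((n : ℝ) + 1) ^ 2 := by
  have hz0 : 0 < z.re := by linarith
  rw [H370.DG.logDeriv_Gamma' hz0]
  have e : log (z + 2) - 1 / z - 1 / (z + 1) + ∑' n, H370.DG.er n z - log (z + 2) =
      -(1 / z) - 1 / (z + 1) + ∑' n, H370.DG.er n z := by ring
  rw [e]
  have h1 : ‖1 / z‖ ≤ 1 / a := by
    rw [norm_div, norm_one]
    exact one_div_le_one_div_of_le ha (hz.trans (re_le_norm z))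
  have h2 : ‖1 / (z + 1)‖ ≤ 1 / a := by
    rw [norm_div, norm_one]
    apply one_div_le_one_div_of_le ha
    have := re_le_norm (z + 1)
    simp at this
    linarith
  have h3 := H370.DG.norm_tsum_er hz0
  have h4 : ‖-(1 / z) - 1 / (z + 1)‖ ≤ 1 / a + 1 / a := by
    refine (norm_sub_le _ _).trans ?_
    rw [norm_neg]
    linarith
  refine (norm_add_le _ _).trans ?_
  have : 2 / a = 1 / a + 1 / a := by ring
  linarith

lemma log_two_bd {z : ℂ} (hz : 0 ≤ z.re) :
    (log (z + 2)).re = Real.log ‖z + 2‖ ∧ ‖log (z + 2)‖ ≤ Real.log ‖z + 2‖ + 2 := by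
  have h2 : 2 ≤ ‖z + 2‖ := by
    have := re_le_norm (z + 2)
    simp at this
    linarith
  refine ⟨log_re _, ?_⟩
  have h3 : ‖log (z + 2)‖ ≤ |(log (z + 2)).re| + |(log (z + 2)).im| := norm_le_abs_re_add_abs_im _
  rw [log_re, log_im, abs_of_nonneg (Real.log_nonneg (by linarith))] at h3
  have h4 : |arg (z + 2)| ≤ Real.pi / 2 := by
    rw [abs_arg_le_pi_div_two_iff]
    simp
    linarith
  have := Real.pi_lt_d2
  linarith

/-- the bounds for one factor -/
lemma lam_bounds {w : ℂ} {a : ℝ} (ha : 0 < a) (hw : 2 * a ≤ w.re) :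
    Real.log ‖w / 2 + 2‖ / 2 - Cd a ≤ (Lam w).re ∧ ‖Lam w‖ ≤ Real.log ‖w / 2 + 2‖ / 2 + Cd a := by
  have hw2 : a ≤ (w / 2).re := by simp; linarith
  have h1 := psi_close ha hw2
  obtain ⟨h2, h3⟩ := log_two_bd (z := w / 2) (by linarith)
  have hZ := Z2_nonneg
  have hlp : 0 ≤ Real.log Real.pi ∧ Real.log Real.pi ≤ 2 := by
    constructor
    · exact Real.log_nonneg (by linarith [Real.pi_gt_three])
    · rw [Real.log_le_iff_le_exp Real.pi_pos]
      have h4 := Real.add_one_le_exp 2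
      have h5 : Real.exp 2 = Real.exp 1 * Real.exp 1 := by rw [← Real.exp_add]; norm_num
      have h6 := Real.exp_one_gt_d9
      have := Real.pi_lt_d2
      nlinarith
  have ha4 : 0 < 1 / a := by positivity
  have e4 : 4 / a = 4 * (1 / a) := by ring
  have e2 : 2 / a = 2 * (1 / a) := by ring
  constructor
  · have h4 := (abs_le.1 (abs_re_le_norm (logDeriv Gamma (w / 2) - log (w / 2 + 2)))).1
    rw [sub_re, h2] at h4
    unfold Lam Cd
    have e : (-((Real.log Real.pi : ℝ) : ℂ) / 2 + logDeriv Gamma (w / 2) / 2).re =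
        -(Real.log Real.pi) / 2 + (logDeriv Gamma (w / 2)).re / 2 := by
      rw [add_re]
      congr 1
      · rw [show (-((Real.log Real.pi : ℝ) : ℂ) / 2) = ((-(Real.log Real.pi) / 2 : ℝ) : ℂ) by
          push_cast; ring, ofReal_re]
      · simp
    rw [e]
    linarith [hlp.2]
  · have h4 : ‖logDeriv Gamma (w / 2)‖ ≤ ‖logDeriv Gamma (w / 2) - log (w / 2 + 2)‖ +
        ‖log (w / 2 + 2)‖ := by
      have := norm_add_le (logDeriv Gamma (w / 2) - log (w / 2 + 2)) (log (w / 2 + 2))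
      simpa using this
    unfold Lam Cd
    refine (norm_add_le _ _).trans ?_
    have e5 : ‖-((Real.log Real.pi : ℝ) : ℂ) / 2‖ = Real.log Real.pi / 2 := by
      rw [norm_div, norm_neg, norm_real, Real.norm_of_nonneg hlp.1]
      simp
    have e6 : ‖logDeriv Gamma (w / 2) / 2‖ = ‖logDeriv Gamma (w / 2)‖ / 2 := by
      rw [norm_div]; simp
    rw [e5, e6]
    linarith [hlp.2]

end Pool.Agent.W188.GLR
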