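import Mathlib
import Pool.Agent.W188.GLR.G1

set_option autoImplicit false

open Complex Filter Topology Set

namespace Pool.Agent.W188.GLR

variable {m : ℕ}

/-- the points at which the factor is regular -/
def Reg (mu : Fin m → ℂ) (s : ℂ) : Prop :=
  ∀ j, 0 < (s - mu j).re ∧ 0 < (1 - s - (starRingEnd ℂ) (mu j)).re

/-- the factor of the functional equation -/
noncomputable def XD (N : ℕ) (mu : Fin m → ℂ) (root : ℂ) (s : ℂ) : ℂ :=
  root * (N : ℂ) ^ (1 / 2 - s) * (∏ j, Gammaℝ (1 - s - (starRingEnd ℂ) (mu j))) *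
    (∏ j, Gammaℝ (s - mu j))⁻¹

/-- minus its logarithmic derivative -/
noncomputable def LL (N : ℕ) (mu : Fin m → ℂ) (s : ℂ) : ℂ :=
  ((Real.log N : ℝ) : ℂ) + ∑ j, (Lam (1 - s - (starRingEnd ℂ) (mu j)) + Lam (s - mu j))

lemma prod_deriv {f : Fin m → ℂ → ℂ} {g : Fin m → ℂ} {s : ℂ}
    (h : ∀ j, HasDerivAt (f j) (f j s * g j) s) :
    HasDerivAt (fun z => ∏ j, f j z) ((∏ j, f j s) * ∑ j, g j) s := by
  classical
  have h1 := HasDerivAt.fun_finsetProd (u := Finset.univ) (f := f) (f' := fun j => f j s * g j)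
    (x := s) (fun j _ => h j)
  refine h1.congr_deriv ?_
  rw [Finset.mul_sum]
  apply Finset.sum_congr rfl
  intro j _
  rw [smul_eq_mul, ← mul_assoc, Finset.prod_erase_mul _ _ (Finset.mem_univ j)]

lemma hasDerivAt_XD {N : ℕ} (hN : 0 < N) {mu : Fin m → ℂ} (root : ℂ) {s : ℂ} (hs : Reg mu s) :
    HasDerivAt (XD N mu root) (-(XD N mu root s * LL N mu s)) s := by
  have hNc : (N : ℂ) ≠ 0 := by exact_mod_cast hN.ne'
  have h1 : HasDerivAt (fun z => ∏ j, Gammaℝ (1 - z - (starRingEnd ℂ) (mu j)))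
      ((∏ j, Gammaℝ (1 - s - (starRingEnd ℂ) (mu j))) *
        ∑ j, -Lam (1 - s - (starRingEnd ℂ) (mu j))) s := by
    apply prod_deriv (f := fun j z => Gammaℝ (1 - z - (starRingEnd ℂ) (mu j)))
    intro j
    have h2 := gr_hasDeriv (hs j).2
    have h3 : HasDerivAt (fun z : ℂ => 1 - z - (starRingEnd ℂ) (mu j)) (-1) s := by
      simpa using ((hasDerivAt_id s).const_sub 1).sub_const ((starRingEnd ℂ) (mu j))
    have h4 := h2.comp s h3
    refine h4.congr_deriv ?_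
    ring
  have h2 : HasDerivAt (fun z => ∏ j, Gammaℝ (z - mu j))
      ((∏ j, Gammaℝ (s - mu j)) * ∑ j, Lam (s - mu j)) s := by
    apply prod_deriv (f := fun j z => Gammaℝ (z - mu j))
    intro j
    have h2 := gr_hasDeriv (hs j).1
    have h3 : HasDerivAt (fun z : ℂ => z - mu j) 1 s := by
      simpa using (hasDerivAt_id s).sub_const (mu j)
    have h4 := h2.comp s h3
    refine h4.congr_deriv ?_
    ring
  have hne : ∏ j, Gammaℝ (s - mu j) ≠ 0 := Finset.prod_ne_zero_iff.2 fun j _ => gr_ne (hs j).1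
  have h3 : HasDerivAt (fun z : ℂ => root * (N : ℂ) ^ (1 / 2 - z))
      (root * ((N : ℂ) ^ (1 / 2 - s) * Complex.log N * (-1))) s := by
    have h4 : HasDerivAt (fun z : ℂ => 1 / 2 - z) (-1) s := by
      simpa using (hasDerivAt_id s).const_sub (1 / 2 : ℂ)
    exact (h4.const_cpow (Or.inl hNc)).const_mul root
  have h4 := (h3.mul h1).mul (h2.inv hne)
  unfold XD
  refine h4.congr_deriv ?_
  unfold LL
  simp only [Pi.mul_apply, Pi.inv_apply]
  rw [Finset.sum_add_distrib, Finset.sum_neg_distrib, natCast_log]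
  field_simp
  ring

lemma norm_gr_conj (w : ℂ) : ‖Gammaℝ ((starRingEnd ℂ) w)‖ = ‖Gammaℝ w‖ := by
  rw [Gammaℝ_def, Gammaℝ_def, norm_mul, norm_mul,
    Complex.norm_cpow_eq_rpow_re_of_pos Real.pi_pos, Complex.norm_cpow_eq_rpow_re_of_pos Real.pi_pos]
  have e3 : (-(starRingEnd ℂ) w / 2).re = (-w / 2).re := by simp
  have e4 : (starRingEnd ℂ) w / 2 = (starRingEnd ℂ) (w / 2) := by rw [map_div₀, map_ofNat]
  rw [e3, e4, Complex.Gamma_conj, Complex.norm_conj]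

/-- the points of the critical line -/
lemma refl_line {s : ℂ} (hs : s.re = 1 / 2) (mu : ℂ) :
    1 - s - (starRingEnd ℂ) mu = (starRingEnd ℂ) (s - mu) := by
  apply Complex.ext
  · simp [hs]; norm_num
  · simp

lemma reg_line {mu : Fin m → ℂ} (hmu : ∀ j, (mu j).re < 1 / 2) {s : ℂ} (hs : s.re = 1 / 2) :
    Reg mu s := by
  intro j
  rw [refl_line hs]
  simp only [sub_re, conj_re]
  constructor <;> linarith [hmu j]

lemma norm_XD_line {N : ℕ} (hN : 0 < N) {mu : Fin m → ℂ} (hmu : ∀ j, (mu j).re < 1 / 2) {root : ℂ}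
    (hroot : ‖root‖ = 1) {s : ℂ} (hs : s.re = 1 / 2) : ‖XD N mu root s‖ = 1 := by
  unfold XD
  rw [norm_mul, norm_mul, norm_mul, hroot, one_mul, norm_inv, norm_prod, norm_prod,
    Complex.norm_natCast_cpow_of_pos hN]
  have e1 : (1 / 2 - s).re = 0 := by simp [hs]
  rw [e1, Real.rpow_zero, one_mul]
  have e2 : ∏ j, ‖Gammaℝ (1 - s - (starRingEnd ℂ) (mu j))‖ = ∏ j, ‖Gammaℝ (s - mu j)‖ := by
    apply Finset.prod_congr rfl
    intro j _
    rw [refl_line hs, norm_gr_conj]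
  rw [e2, mul_inv_cancel₀]
  apply Finset.prod_ne_zero_iff.2
  intro j _
  exact norm_ne_zero_iff.2 (gr_ne (reg_line hmu hs j).1)

lemma LL_line_im {N : ℕ} {mu : Fin m → ℂ} (hmu : ∀ j, (mu j).re < 1 / 2) {s : ℂ}
    (hs : s.re = 1 / 2) : (LL N mu s).im = 0 := by
  unfold LL
  rw [add_im, ofReal_im, zero_add, im_sum]
  apply Finset.sum_eq_zero
  intro j _
  rw [refl_line hs, lam_conj (reg_line hmu hs j).1, add_im, conj_im]
  ring

/-- the functional equation in terms of the factor -/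
lemma fe_XD {N : ℕ} {mu : Fin m → ℂ} {root : ℂ} {f : ℂ → ℂ}
    (hfe : ∀ s : ℂ, f s * ∏ j, (Gammaℝ (1 - s - (starRingEnd ℂ) (mu j)))⁻¹ =
      root * (N : ℂ) ^ (1 / 2 - s) * (starRingEnd ℂ) (f (1 - (starRingEnd ℂ) s)) *
        ∏ j, (Gammaℝ (s - mu j))⁻¹) {s : ℂ} (hs : Reg mu s) :
    f s = XD N mu root s * (starRingEnd ℂ) (f (1 - (starRingEnd ℂ) s)) := by
  have h := hfe s
  rw [Finset.prod_inv_distrib, Finset.prod_inv_distrib] at h
  have hne : ∏ j, Gammaℝ (1 - s - (starRingEnd ℂ) (mu j)) ≠ 0 :=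
    Finset.prod_ne_zero_iff.2 fun j _ => gr_ne (hs j).2
  rw [← div_eq_mul_inv, div_eq_iff hne] at h
  rw [h]
  unfold XD
  ring

/-- the local conductor -/
noncomputable def QL (N : ℕ) (mu : Fin m → ℂ) (t : ℝ) : ℝ := N * ∏ j, (1 + ‖mu j - t * I‖)

lemma log_QL {N : ℕ} (hN : 0 < N) (mu : Fin m → ℂ) (t : ℝ) :
    Real.log (QL N mu t) = Real.log N + ∑ j, Real.log (1 + ‖mu j - t * I‖) := by
  unfold QL
  have h1 : ∀ j ∈ Finset.univ, (1 + ‖mu j - t * I‖) ≠ 0 := fun j _ => by positivity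
  have h2 : (N : ℝ) ≠ 0 := by exact_mod_cast hN.ne'
  rw [Real.log_mul h2 (Finset.prod_ne_zero_iff.2 h1), Real.log_prod h1]

lemma size_bd {σ : ℝ} {ν : ℂ} (h0 : 0 ≤ σ) (h1 : σ ≤ 1) (h2 : 0 ≤ ((σ : ℂ) - ν).re) :
    Real.log (1 + ‖ν‖) - 2 ≤ Real.log ‖((σ : ℂ) - ν) / 2 + 2‖ ∧
      Real.log ‖((σ : ℂ) - ν) / 2 + 2‖ ≤ Real.log (1 + ‖ν‖) + 2 := by
  set w : ℂ := (σ : ℂ) - ν with hw
  have hσ : ‖(σ : ℂ)‖ ≤ 1 := by rw [norm_real, Real.norm_of_nonneg h0]; exact h1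
  have a1 : ‖ν‖ ≤ ‖w‖ + 1 := by
    have e : ν = (σ : ℂ) - w := by rw [hw]; ring
    rw [e]
    refine (norm_sub_le _ _).trans ?_
    linarith
  have a2 : ‖w‖ ≤ 1 + ‖ν‖ := by
    rw [hw]
    refine (norm_sub_le _ _).trans ?_
    linarith
  have a3 : 2 ≤ ‖w / 2 + 2‖ := by
    have := re_le_norm (w / 2 + 2)
    simp at this
    linarith
  have a4 : ‖w‖ / 2 ≤ ‖w / 2 + 2‖ := by
    apply le_of_sq_le_sq _ (norm_nonneg _)
    rw [div_pow, ← normSq_eq_norm_sq, ← normSq_eq_norm_sq, normSq_apply, normSq_apply]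
    simp
    nlinarith
  have a5 : ‖w / 2 + 2‖ ≤ ‖w‖ / 2 + 2 := by
    refine (norm_add_le _ _).trans ?_
    rw [norm_div]
    simp
  have hν := norm_nonneg ν
  have hp : 0 < ‖w / 2 + 2‖ := by linarith
  have he2 : (4 : ℝ) ≤ Real.exp 2 := by
    have h5 : Real.exp 2 = Real.exp 1 * Real.exp 1 := by rw [← Real.exp_add]; norm_num
    have h6 := Real.exp_one_gt_d9
    rw [h5]; nlinarith
  constructor
  · rw [sub_le_iff_le_add]
    have h3 : 1 + ‖ν‖ ≤ Real.exp 2 * ‖w / 2 + 2‖ := by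
      calc 1 + ‖ν‖ ≤ 4 * ‖w / 2 + 2‖ := by linarith
        _ ≤ _ := mul_le_mul_of_nonneg_right he2 hp.le
    have h4 := Real.log_le_log (by positivity) h3
    rw [Real.log_mul (Real.exp_pos _).ne' hp.ne', Real.log_exp] at h4
    linarith
  · have h3 : ‖w / 2 + 2‖ ≤ Real.exp 2 * (1 + ‖ν‖) := by
      calc ‖w / 2 + 2‖ ≤ 4 * (1 + ‖ν‖) := by linarith
        _ ≤ _ := mul_le_mul_of_nonneg_right he2 (by positivity)
    have h4 := Real.log_le_log hp h3
    rw [Real.log_mul (Real.exp_pos _).ne' (by positivity), Real.log_exp] at h4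
    linarith

/-- bounds for the logarithmic derivative in `1/2 ≤ Re s ≤ 1/2 + δ/2` -/
lemma LL_bounds {N : ℕ} (hN : 0 < N) {mu : Fin m → ℂ} {δ : ℝ} (hδ : 0 < δ)
    (hmu : ∀ j, (mu j).re ≤ 1 / 2 - δ) {s : ℂ} (h0 : 1 / 2 ≤ s.re) (h1 : s.re ≤ 1 / 2 + δ / 2)
    (h2 : s.re ≤ 1) :
    Reg mu s ∧ Real.log (QL N mu s.im) - m * (2 * Cd (δ / 4) + 2) ≤ (LL N mu s).re ∧
      ‖LL N mu s‖ ≤ Real.log (QL N mu s.im) + m * (2 * Cd (δ / 4) + 2) := by
  have key : ∀ j, 2 * (δ / 4) ≤ (s - mu j).re ∧ 2 * (δ / 4) ≤ (1 - s - (starRingEnd ℂ) (mu j)).re := by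
    intro j
    have := hmu j
    simp only [sub_re, one_re, conj_re]
    constructor <;> linarith
  have hreg : Reg mu s := fun j => ⟨by linarith [(key j).1], by linarith [(key j).2]⟩
  have hN1 : (1 : ℝ) ≤ N := by exact_mod_cast hN
  have hterm : ∀ j, Real.log (1 + ‖mu j - s.im * I‖) - (2 * Cd (δ / 4) + 2) ≤
        (Lam (1 - s - (starRingEnd ℂ) (mu j)) + Lam (s - mu j)).re ∧
      ‖Lam (1 - s - (starRingEnd ℂ) (mu j)) + Lam (s - mu j)‖ ≤
        Real.log (1 + ‖mu j - s.im * I‖) + (2 * Cd (δ / 4) + 2) := by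
    intro j
    set ν : ℂ := mu j - s.im * I with hν
    have e1 : s - mu j = ((s.re : ℝ) : ℂ) - ν := by
      rw [hν]; apply Complex.ext <;> simp
    have e2 : 1 - s - (starRingEnd ℂ) (mu j) = (starRingEnd ℂ) (((1 - s.re : ℝ) : ℂ) - ν) := by
      rw [hν]; apply Complex.ext <;> simp
    obtain ⟨k1, k2⟩ := key j
    obtain ⟨b1, b2⟩ := lam_bounds (a := δ / 4) (by positivity) k1
    obtain ⟨b3, b4⟩ := lam_bounds (a := δ / 4) (by positivity) k2
    have e3 : ‖(1 - s - (starRingEnd ℂ) (mu j)) / 2 + 2‖ = ‖(((1 - s.re : ℝ) : ℂ) - ν) / 2 + 2‖ := by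
      rw [e2, ← norm_conj]
      congr 1
      rw [map_add, map_div₀, conj_conj, map_ofNat]
    have s1 := size_bd (σ := s.re) (ν := ν) (by linarith) h2 (by rw [← e1]; linarith)
    have s2 := size_bd (σ := 1 - s.re) (ν := ν) (by linarith) (by linarith) (by
      have : (((1 - s.re : ℝ) : ℂ) - ν).re = (1 - s - (starRingEnd ℂ) (mu j)).re := by
        rw [e2, conj_re]
      rw [this]; linarith)
    rw [← e1] at s1
    rw [← e3] at s2
    constructor
    · rw [add_re]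
      linarith [s1.1, s2.1]
    · refine (norm_add_le _ _).trans ?_
      linarith [s1.2, s2.2]
  refine ⟨hreg, ?_, ?_⟩
  · rw [log_QL hN]
    unfold LL
    rw [add_re, ofReal_re, re_sum]
    have h3 : ∑ j : Fin m, (Real.log (1 + ‖mu j - s.im * I‖) - (2 * Cd (δ / 4) + 2)) ≤
        ∑ j, (Lam (1 - s - (starRingEnd ℂ) (mu j)) + Lam (s - mu j)).re :=
      Finset.sum_le_sum fun j _ => (hterm j).1
    rw [Finset.sum_sub_distrib, Finset.sum_const, Finset.card_univ, Fintype.card_fin,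
      nsmul_eq_mul] at h3
    linarith
  · rw [log_QL hN]
    unfold LL
    refine (norm_add_le _ _).trans ?_
    rw [norm_real, Real.norm_of_nonneg (Real.log_nonneg hN1)]
    have h3 : ‖∑ j : Fin m, (Lam (1 - s - (starRingEnd ℂ) (mu j)) + Lam (s - mu j))‖ ≤
        ∑ j : Fin m, (Real.log (1 + ‖mu j - s.im * I‖) + (2 * Cd (δ / 4) + 2)) :=
      (norm_sum_le _ _).trans (Finset.sum_le_sum fun j _ => (hterm j).2)
    have h4 : ∑ j : Fin m, (Real.log (1 + ‖mu j - s.im * I‖) + (2 * Cd (δ / 4) + 2)) =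
        ∑ j : Fin m, Real.log (1 + ‖mu j - s.im * I‖) + m * (2 * Cd (δ / 4) + 2) := by
      rw [Finset.sum_add_distrib, Finset.sum_const, Finset.card_univ, Fintype.card_fin,
        nsmul_eq_mul]
    linarith

/-- the factor decreases to the right of the critical line -/
lemma norm_XD_le {N : ℕ} (hN : 0 < N) {mu : Fin m → ℂ} {δ : ℝ} (hδ : 0 < δ)
    (hmu : ∀ j, (mu j).re ≤ 1 / 2 - δ) {root : ℂ} (hroot : ‖root‖ = 1) {s : ℂ}
    (h0 : 1 / 2 ≤ s.re) (h1 : s.re ≤ 1 / 2 + δ / 2) (h2 : s.re ≤ 1) {b : ℝ}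
    (hb : b ≤ Real.log (QL N mu s.im) - m * (2 * Cd (δ / 4) + 2)) :
    ‖XD N mu root s‖ ≤ Real.exp (-(b * (s.re - 1 / 2))) := by
  set t := s.im with ht
  have hmu' : ∀ j, (mu j).re < 1 / 2 := fun j => by linarith [hmu j]
  have hd : ∀ x ∈ Icc (1 / 2 : ℝ) s.re, HasDerivAt
      (fun x : ℝ => ‖XD N mu root ((x : ℂ) + (t : ℂ) * I)‖ ^ 2 * Real.exp (2 * b * (x - 1 / 2)))
      (2 * inner ℝ (XD N mu root ((x : ℂ) + (t : ℂ) * I))
        (-(XD N mu root ((x : ℂ) + (t : ℂ) * I) * LL N mu ((x : ℂ) + (t : ℂ) * I))) *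
          Real.exp (2 * b * (x - 1 / 2)) +
        ‖XD N mu root ((x : ℂ) + (t : ℂ) * I)‖ ^ 2 * (Real.exp (2 * b * (x - 1 / 2)) * (2 * b))) x := by
    intro x hx
    have hb1 := LL_bounds hN hδ hmu (s := (x : ℂ) + (t : ℂ) * I) (by simpa using hx.1)
      (by simp; linarith [hx.2]) (by simp; linarith [hx.2])
    have h3 := hasDerivAt_XD hN root hb1.1
    have h4 : HasDerivAt (fun x : ℝ => (x : ℂ) + (t : ℂ) * I) 1 x := by
      simpa using (ofRealCLM.hasDerivAt (x := x)).add_const ((t : ℂ) * I)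
    have h5 := h3.comp x h4
    rw [mul_one] at h5
    have h6 := h5.norm_sq
    have h7 : HasDerivAt (fun x : ℝ => Real.exp (2 * b * (x - 1 / 2)))
        (Real.exp (2 * b * (x - 1 / 2)) * (2 * b)) x := by
      have h8 : HasDerivAt (fun x : ℝ => 2 * b * (x - 1 / 2)) (2 * b) x := by
        simpa using ((hasDerivAt_id x).sub_const (1 / 2 : ℝ)).const_mul (2 * b)
      exact h8.exp
    exact h6.mul h7
  have hanti : AntitoneOn
      (fun x : ℝ => ‖XD N mu root ((x : ℂ) + (t : ℂ) * I)‖ ^ 2 * Real.exp (2 * b * (x - 1 / 2)))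
      (Icc (1 / 2) s.re) := by
    apply antitoneOn_of_deriv_nonpos (convex_Icc _ _)
    · intro x hx
      exact (hd x hx).continuousAt.continuousWithinAt
    · intro x hx
      rw [interior_Icc] at hx
      exact (hd x ⟨hx.1.le, hx.2.le⟩).differentiableAt.differentiableWithinAt
    · intro x hx
      rw [interior_Icc] at hx
      rw [(hd x ⟨hx.1.le, hx.2.le⟩).deriv]
      have hb1 := LL_bounds hN hδ hmu (s := (x : ℂ) + (t : ℂ) * I) (by simpa using hx.1.le)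
        (by simp; linarith [hx.2]) (by simp; linarith [hx.2])
      have e0 : ((x : ℂ) + (t : ℂ) * I).im = t := by simp
      rw [e0] at hb1
      have h3 : inner ℝ (XD N mu root ((x : ℂ) + (t : ℂ) * I))
        (-(XD N mu root ((x : ℂ) + (t : ℂ) * I) * LL N mu ((x : ℂ) + (t : ℂ) * I))) =
        -(‖XD N mu root ((x : ℂ) + (t : ℂ) * I)‖ ^ 2 * (LL N mu ((x : ℂ) + (t : ℂ) * I)).re) := by
        rw [inner_neg_right, Complex.inner, mul_comm (XD _ _ _ _) (LL _ _ _), mul_assoc, mul_conj,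
          normSq_eq_norm_sq, re_mul_ofReal, mul_comm]
      rw [h3]
      have h4 : b ≤ (LL N mu ((x : ℂ) + (t : ℂ) * I)).re := hb.trans hb1.2.1
      have h5 : 0 ≤ ‖XD N mu root ((x : ℂ) + (t : ℂ) * I)‖ ^ 2 * Real.exp (2 * b * (x - 1 / 2)) := by
        positivity
      nlinarith [mul_nonneg h5 (sub_nonneg.2 h4)]
  have h := hanti (left_mem_Icc.2 h0) (right_mem_Icc.2 h0) h0
  simp only at h
  have e1 : ((s.re : ℂ)) + (t : ℂ) * I = s := by
    rw [ht]; exact re_add_im s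
  have e2 : ‖XD N mu root ((((1 / 2 : ℝ)) : ℂ) + (t : ℂ) * I)‖ = 1 :=
    norm_XD_line hN hmu' hroot (by simp)
  rw [e1, e2, sub_self, mul_zero, Real.exp_zero] at h
  have h3 : ‖XD N mu root s‖ ^ 2 ≤ Real.exp (-(b * (s.re - 1 / 2))) ^ 2 := by
    rw [← Real.exp_nat_mul]
    have h4 : Real.exp (((2 : ℕ) : ℝ) * -(b * (s.re - 1 / 2))) =
        (Real.exp (2 * b * (s.re - 1 / 2)))⁻¹ := by
      rw [← Real.exp_neg]; congr 1; push_cast; ring
    rw [h4, inv_eq_one_div, le_div_iff₀ (Real.exp_pos _)]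
    linarith
  exact le_of_sq_le_sq h3 (Real.exp_pos _).le

end Pool.Agent.W188.GLR
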