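import Mathlib
import Pool.Agent.W188.Ray.A2

/-!
# Local data of an L-function at a height and the improvement step
-/

set_option autoImplicit false

open Complex Filter Topology Set Metric

namespace Pool.Agent.W188.GLR

open Pool.Agent.W188.Ray

/-- if `Y` is close to `1`, then it is equal to `1` at a nearby point -/
lemma near_gen {Y : ℝ → ℂ} {L : ℝ → ℝ} {t κ A : ℝ} (hκ : 0 < κ)
    (hYd : ∀ x ∈ Icc (t - 4 * κ) (t + 4 * κ), HasDerivAt Y (-(Y x * (L x : ℂ)) * I) x)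
    (hYn : ∀ x ∈ Icc (t - 4 * κ) (t + 4 * κ), ‖Y x‖ = 1)
    (hL1 : ∀ x ∈ Icc (t - 4 * κ) (t + 4 * κ), 1 ≤ L x)
    (hL2 : ∀ x ∈ Icc (t - 4 * κ) (t + 4 * κ), L x ≤ A)
    (hκ1 : κ * A ≤ 1 / 32) (h : ‖1 - Y t‖ ≤ κ) :
    ∃ t' : ℝ, |t' - t| ≤ 4 * κ ∧ Y t' = 1 := by
  have ht0 : t ∈ Icc (t - 4 * κ) (t + 4 * κ) := ⟨by linarith, by linarith⟩
  have hA : 1 ≤ A := (hL1 t ht0).trans (hL2 t ht0)
  have hκ2 : κ ≤ 1 / 32 := by nlinarith
  have hclose : ∀ x ∈ Icc (t - 4 * κ) (t + 4 * κ), ‖Y x - Y t‖ ≤ 1 / 8 := by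
    intro x hx
    have h3 := (convex_Icc (t - 4 * κ) (t + 4 * κ)).norm_image_sub_le_of_norm_hasDerivWithin_le
      (f := Y) (f' := fun x => -(Y x * (L x : ℂ)) * I) (C := A)
      (fun y hy => (hYd y hy).hasDerivWithinAt)
      (fun y hy => by
        rw [norm_mul, norm_I, mul_one, norm_neg, norm_mul, hYn y hy, one_mul, norm_real,
          Real.norm_of_nonneg (by linarith [hL1 y hy])]
        exact hL2 y hy) ht0 hx
    refine h3.trans ?_
    have h4 : ‖x - t‖ ≤ 4 * κ := by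
      rw [Real.norm_eq_abs]
      exact abs_le.2 ⟨by linarith [hx.1], by linarith [hx.2]⟩
    calc A * ‖x - t‖ ≤ A * (4 * κ) := mul_le_mul_of_nonneg_left h4 (by linarith)
      _ ≤ 1 / 8 := by linarith
  have hre : ∀ x ∈ Icc (t - 4 * κ) (t + 4 * κ), 3 / 4 ≤ (Y x).re := by
    intro x hx
    have h3 : ‖1 - Y x‖ ≤ 1 / 4 := by
      have e : 1 - Y x = (1 - Y t) - (Y x - Y t) := by ring
      rw [e]
      refine (norm_sub_le _ _).trans ?_
      have := hclose x hx
      linarith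
    have h4 := (abs_re_le_norm (1 - Y x)).trans h3
    rw [sub_re, one_re] at h4
    linarith [(abs_le.1 h4).2]
  set g : ℝ → ℝ := fun x => (Y x).im with hg
  have hgd : ∀ x ∈ Icc (t - 4 * κ) (t + 4 * κ),
      HasDerivAt g ((-(Y x * (L x : ℂ)) * I).im) x := by
    intro x hx
    exact (imCLM.hasFDerivAt.comp_hasDerivAt x (hYd x hx))
  have hg' : ∀ x ∈ Icc (t - 4 * κ) (t + 4 * κ), (-(Y x * (L x : ℂ)) * I).im ≤ -(1 / 3) := by
    intro x hx
    have a1 := hL1 x hx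
    have a4 := hre x hx
    have e : (-(Y x * (L x : ℂ)) * I).im = -((Y x).re * L x) := by
      simp [mul_im, mul_re]
    rw [e]
    have a7 : 3 / 4 * 1 ≤ (Y x).re * L x :=
      mul_le_mul a4 a1 (by norm_num) (by linarith)
    linarith
  have hgc : ContinuousOn g (Icc (t - 4 * κ) (t + 4 * κ)) :=
    fun x hx => (hgd x hx).continuousAt.continuousWithinAt
  have hg0 : |g t| ≤ κ := by
    have h3 := (abs_im_le_norm (1 - Y t)).trans h
    rw [sub_im, one_im, zero_sub, abs_neg] at h3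
    exact h3
  have hg0' := abs_le.1 hg0
  have hleft : 0 ≤ g (t - 4 * κ) := by
    obtain ⟨x, hx, hx2⟩ := exists_hasDerivAt_eq_slope g (fun x => (-(Y x * (L x : ℂ)) * I).im)
      (a := t - 4 * κ) (b := t) (by linarith)
      (hgc.mono (Icc_subset_Icc le_rfl (by linarith)))
      (fun x hx => hgd x ⟨hx.1.le, by linarith [hx.2]⟩)
    have h3 := hg' x ⟨hx.1.le, by linarith [hx.2]⟩
    rw [hx2, div_le_iff₀ (by linarith)] at h3
    linarith [hg0'.1]
  have hright : g (t + 4 * κ) ≤ 0 := by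
    obtain ⟨x, hx, hx2⟩ := exists_hasDerivAt_eq_slope g (fun x => (-(Y x * (L x : ℂ)) * I).im)
      (a := t) (b := t + 4 * κ) (by linarith)
      (hgc.mono (Icc_subset_Icc (by linarith) le_rfl))
      (fun x hx => hgd x ⟨by linarith [hx.1], hx.2.le⟩)
    have h3 := hg' x ⟨by linarith [hx.1], hx.2.le⟩
    rw [hx2, div_le_iff₀ (by linarith)] at h3
    linarith [hg0'.2]
  obtain ⟨x, hx, hx0⟩ := intermediate_value_Icc' (by linarith : t - 4 * κ ≤ t + 4 * κ) hgc
    (⟨hright, hleft⟩ : (0 : ℝ) ∈ Icc (g (t + 4 * κ)) (g (t - 4 * κ)))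
  refine ⟨x, abs_le.2 ⟨by linarith [hx.1], by linarith [hx.2]⟩, ?_⟩
  have h4 : (Y x).im = 0 := hx0
  have h5 := hre x hx
  have h6 := hYn x hx
  rw [← abs_re_eq_norm.2 h4, abs_of_pos (by linarith)] at h6
  apply Complex.ext
  · exact h6
  · exact h4

/-- the length of the window; `y` is `A` times the logarithm of the conductor -/
noncomputable def Wd (y : ℝ) : ℝ := 4 * Real.log (68 * y)

lemma exp_Wd {y : ℝ} (hy : 1 ≤ y) : Real.exp (Wd y / 4) / 4 = 17 * y := by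
  unfold Wd
  rw [mul_div_cancel_left₀ _ (by norm_num : (4 : ℝ) ≠ 0), Real.exp_log (by linarith)]
  ring

lemma Wd_ge {y : ℝ} (hy : 1 ≤ y) : 2 ≤ Wd y := by
  unfold Wd
  have h1 : 1 ≤ Real.log (68 * y) := by
    rw [Real.le_log_iff_exp_le (by linarith)]
    have := Real.exp_one_lt_d9
    linarith
  linarith

/-- local data in the window of radius `R` around `T`; `Λ` is the logarithm of the conductor -/
structure Loc (f X L : ℂ → ℂ) (T R Λ A δ G : ℝ) : Prop where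
  hδ : 0 < δ
  hδ1 : δ ≤ 1 / 2
  hy : 1 ≤ A * Λ
  hG : 1 ≤ G
  hG2 : G ≤ Real.exp (A * Λ)
  fd : Differentiable ℂ f
  crude : ∀ s : ℂ, |s.im - T| ≤ R → 0 ≤ s.re → s.re ≤ 5 / 4 → ‖f s‖ ≤ Real.exp (A * Λ)
  right : ∀ s : ℂ, |s.im - T| ≤ R → s.re = 5 / 4 → ‖f s‖ ≤ G
  refl : ∀ x t : ℝ, |t - T| ≤ R → 0 ≤ x → x ≤ 1 / 4 →
    ‖f (1 / 2 - x + t * I)‖ ≤ Real.exp (A * (x * Λ + 1)) * ‖f (1 / 2 + x + t * I)‖
  Xd : ∀ s : ℂ, |s.im - T| ≤ R → 1 / 2 ≤ s.re → s.re ≤ 1 / 2 + δ → HasDerivAt X (-(X s * L s)) s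
  X1 : ∀ s : ℂ, |s.im - T| ≤ R → 1 / 2 ≤ s.re → s.re ≤ 1 / 2 + δ → ‖X s‖ ≤ 1
  X2 : ∀ s : ℂ, |s.im - T| ≤ R → 1 / 2 + δ / 2 ≤ s.re → s.re ≤ 1 / 2 + δ → ‖X s‖ ≤ 1 / 2
  Xline : ∀ t : ℝ, |t - T| ≤ R → ‖X (cp t)‖ = 1
  fe : ∀ t : ℝ, |t - T| ≤ R → f (cp t) = X (cp t) * (starRingEnd ℂ) (f (cp t))
  Lim : ∀ t : ℝ, |t - T| ≤ R → (L (cp t)).im = 0
  Lre : ∀ t : ℝ, |t - T| ≤ R → 1 ≤ (L (cp t)).re ∧ (L (cp t)).re ≤ A * Λ

namespace Loc

variable {f X L : ℂ → ℂ} {T R Λ A δ G : ℝ}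

/-- derivative bound on the line -/
lemma lip (D : Loc f X L T R Λ A δ G) {t t' : ℝ} (ht : |t - T| ≤ R - 1) (h : |t' - t| ≤ 1 / 4) :
    ‖f (cp t') - f (cp t)‖ ≤ 2 * Real.exp (A * Λ) * |t' - t| := by
  have hder : ∀ x ∈ Icc (t - 1 / 4) (t + 1 / 4), ‖deriv f (cp x)‖ ≤ 2 * Real.exp (A * Λ) := by
    intro x hx
    have h1 := norm_deriv_le_of_forall_mem_sphere_norm_le (f := f) (c := cp x) (R := 1 / 2)
      (C := Real.exp (A * Λ)) (by norm_num) (D.fd.diffContOnCl) (by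
        intro z hz
        have hz' : ‖z - cp x‖ = 1 / 2 := by simpa [dist_eq_norm] using hz
        have h2 := abs_le.1 ((abs_re_le_norm (z - cp x)).trans hz'.le)
        have h3 := abs_le.1 ((abs_im_le_norm (z - cp x)).trans hz'.le)
        rw [sub_re, cp_re] at h2
        rw [sub_im, cp_im] at h3
        have h4 := abs_le.1 ht
        apply D.crude z _ (by linarith [h2.1]) (by linarith [h2.2])
        rw [abs_le]
        constructor <;> linarith [hx.1, hx.2, h3.1, h3.2, h4.1, h4.2])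
    refine h1.trans (le_of_eq ?_)
    ring
  have hd : ∀ x ∈ Icc (t - 1 / 4) (t + 1 / 4), HasDerivWithinAt (fun x : ℝ => f (cp x))
      (deriv f (cp x) * I) (Icc (t - 1 / 4) (t + 1 / 4)) x := by
    intro x _
    have h2 : HasDerivAt (fun x : ℝ => cp x) I x := by
      unfold cp
      simpa using ((ofRealCLM.hasDerivAt (x := x)).mul_const I).const_add (1 / 2 : ℂ)
    exact ((D.fd _).hasDerivAt.comp x h2).hasDerivWithinAt
  have h' := abs_le.1 h
  have h3 := (convex_Icc (t - 1 / 4) (t + 1 / 4)).norm_image_sub_le_of_norm_hasDerivWithin_le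
    (f := fun x : ℝ => f (cp x)) (f' := fun x => deriv f (cp x) * I)
    (C := 2 * Real.exp (A * Λ)) hd
    (fun y hy => by rw [norm_mul, norm_I, mul_one]; exact hder y hy)
    (⟨by linarith, by linarith⟩ : t ∈ Icc (t - 1 / 4) (t + 1 / 4))
    (⟨by linarith [h'.1], by linarith [h'.2]⟩ : t' ∈ Icc (t - 1 / 4) (t + 1 / 4))
  rwa [Real.norm_eq_abs] at h3

/-- the width of the gap in `1 - X` -/
noncomputable def kap (y : ℝ) : ℝ := 1 / (64 * y * Real.exp y)

lemma kap_pos {y : ℝ} (hy : 1 ≤ y) : 0 < kap y := by unfold kap; positivity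

lemma kap_exp {y : ℝ} (hy : 1 ≤ y) : kap y * y * Real.exp y = 1 / 64 := by
  unfold kap
  have := Real.exp_pos y
  field_simp

/-- the value on the line close to the zeros of `1 - X` -/
lemma near (D : Loc f X L T R Λ A δ G) {u : ℂ} (hu : ‖u‖ = 1) {M t : ℝ} (ht : |t - T| ≤ R - 1)
    (hM : ∀ v r : ℝ, |v - t| ≤ 1 → f (cp v) = r * u → r ≤ M)
    (h : ‖1 - (starRingEnd ℂ) u ^ 2 * X (cp t)‖ ≤ kap (A * Λ)) :
    ((starRingEnd ℂ) u * f (cp t)).re ≤ M + 1 := by
  set y := A * Λ with hyd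
  have hy := D.hy
  have hκ := kap_pos hy
  have hke := kap_exp hy
  have hey : 1 ≤ Real.exp y := Real.one_le_exp (by linarith)
  have hky : kap y * y ≤ 1 / 64 := by nlinarith [mul_pos hκ (by linarith : 0 < y)]
  have hk1 : kap y ≤ 1 / 64 := by nlinarith
  have hk2 : kap y * Real.exp y ≤ 1 / 64 := by
    have : 0 < kap y * Real.exp y := by positivity
    nlinarith
  have hwin : ∀ x ∈ Icc (t - 4 * kap y) (t + 4 * kap y), |x - T| ≤ R := by
    intro x hx
    have h1 := abs_le.1 ht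
    rw [abs_le]
    constructor <;> linarith [hx.1, hx.2, h1.1, h1.2]
  have huc : ‖(starRingEnd ℂ) u ^ 2‖ = 1 := by rw [norm_pow, norm_conj, hu, one_pow]
  obtain ⟨t', ht1, ht2⟩ := near_gen (Y := fun x : ℝ => (starRingEnd ℂ) u ^ 2 * X (cp x))
    (L := fun x => (L (cp x)).re) (t := t) (κ := kap y) (A := y) hκ
    (by
      intro x hx
      have h1 := D.Xd (cp x) (by simpa using hwin x hx) (by simp) (by simp; linarith [D.hδ])
      have h2 : HasDerivAt (fun x : ℝ => cp x) I x := by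
        unfold cp
        simpa using ((ofRealCLM.hasDerivAt (x := x)).mul_const I).const_add (1 / 2 : ℂ)
      have h3 := (h1.comp x h2).const_mul ((starRingEnd ℂ) u ^ 2)
      have h4 : L (cp x) = (((L (cp x)).re : ℝ) : ℂ) := by
        apply Complex.ext
        · simp
        · simp [D.Lim x (hwin x hx)]
      refine h3.congr_deriv ?_
      rw [← h4]
      ring)
    (by
      intro x hx
      rw [norm_mul, huc, D.Xline x (hwin x hx), one_mul])
    (fun x hx => (D.Lre x (hwin x hx)).1) (fun x hx => (D.Lre x (hwin x hx)).2)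
    (by linarith) h
  -- the value at `t'`
  have ht'T : |t' - T| ≤ R := by
    have h1 := abs_le.1 ht
    have h2 := abs_le.1 ht1
    rw [abs_le]
    constructor <;> linarith [h1.1, h1.2, h2.1, h2.2]
  have hf := D.fe t' ht'T
  have huu : (starRingEnd ℂ) u * u = 1 := by
    rw [mul_comm, mul_conj, normSq_eq_norm_sq, hu]; simp
  have hw : (starRingEnd ℂ) u * f (cp t') = (starRingEnd ℂ) ((starRingEnd ℂ) u * f (cp t')) := by
    rw [map_mul, conj_conj]
    calc (starRingEnd ℂ) u * f (cp t')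
        = (starRingEnd ℂ) u * (X (cp t') * (starRingEnd ℂ) (f (cp t'))) := by rw [← hf]
      _ = ((starRingEnd ℂ) u ^ 2 * X (cp t')) * (u * (starRingEnd ℂ) (f (cp t'))) := by
          linear_combination (-(starRingEnd ℂ) u * X (cp t') * (starRingEnd ℂ) (f (cp t'))) * huu
      _ = _ := by rw [ht2, one_mul]
  have him : ((starRingEnd ℂ) u * f (cp t')).im = 0 := by
    have := congrArg Complex.im hw
    rw [conj_im] at this
    linarith
  have hval : f (cp t') = (((starRingEnd ℂ) u * f (cp t')).re : ℂ) * u := by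
    have e1 : (((starRingEnd ℂ) u * f (cp t')).re : ℂ) = (starRingEnd ℂ) u * f (cp t') := by
      apply Complex.ext
      · simp only [ofReal_re]
      · rw [him, ofReal_im]
    rw [e1]
    linear_combination (-f (cp t')) * huu
  have hr := hM t' _ (by linarith) hval
  have hl := D.lip ht (t' := t') (by linarith)
  have h5 : ‖(starRingEnd ℂ) u * f (cp t) - (starRingEnd ℂ) u * f (cp t')‖ ≤ 1 := by
    rw [← mul_sub, norm_mul, norm_conj, hu, one_mul, ← norm_neg, neg_sub]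
    refine hl.trans ?_
    have h6 : 2 * Real.exp y * |t' - t| ≤ 2 * Real.exp y * (4 * kap y) :=
      mul_le_mul_of_nonneg_left ht1 (by positivity)
    nlinarith
  have h6 := (abs_le.1 ((abs_re_le_norm _).trans h5)).2
  rw [sub_re] at h6
  linarith

end Loc

end Pool.Agent.W188.GLR
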