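import Mathlib
import Pool.Agent.W188.GLR.G3

set_option autoImplicit false

open Complex Filter Topology Set Metric

namespace Pool.Agent.W188.GLR

open Pool.Agent.W188.Ray

/-- the rescaling of the strip -/
noncomputable def sc (T0 l : ℝ) (s : ℂ) : ℂ := (l : ℂ) * s + ((1 - l : ℝ) : ℂ) * cp T0

lemma sc_re (T0 l : ℝ) (s : ℂ) : (sc T0 l s).re = 1 / 2 + l * (s.re - 1 / 2) := by
  simp [sc, cp_re, mul_re]; ring

lemma sc_im (T0 l : ℝ) (s : ℂ) : (sc T0 l s).im = T0 + l * (s.im - T0) := by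
  simp [sc, cp_im, mul_im]; ring

lemma sc_line (T0 l t : ℝ) : sc T0 l (cp t) = cp (T0 + l * (t - T0)) := by
  apply Complex.ext
  · rw [sc_re]; simp
  · rw [sc_im]; simp

lemma sc_deriv (T0 l : ℝ) (s : ℂ) : HasDerivAt (sc T0 l) l s := by
  unfold sc
  simpa using ((hasDerivAt_id s).const_mul (l : ℂ)).add_const (((1 - l : ℝ) : ℂ) * cp T0)

namespace Loc

variable {f X L : ℂ → ℂ} {T R Λ A δ G : ℝ}

/-- the bound to the right of the line -/
theorem step1 (D : Loc f X L T R Λ A δ G) {u : ℂ} (hu : ‖u‖ = 1) {M B T0 : ℝ}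
    (hT0 : |T0 - T| ≤ R - (Wd (A * Λ) + 1)) (hM1 : 1 ≤ M) (hB1 : 1 ≤ B)
    (hM : ∀ v r : ℝ, |v - T0| ≤ Wd (A * Λ) + 1 → f (cp v) = r * u → r ≤ M)
    (hB : ∀ s : ℂ, |s.im - T0| ≤ Wd (A * Λ) → (s.re = 1 / 2 + δ ∨ s.re = 1 / 2 + δ / 2) → ‖f s‖ ≤ B)
    {η : ℝ} (h0 : 0 < η) (h1 : η ≤ 1 / 2) :
    ‖f (1 / 2 + ((δ / 3 * η : ℝ) : ℂ) + (T0 : ℂ) * I)‖ ≤ 120 * (M + 1 + B) / η := by
  set y := A * Λ with hyd
  have hy := D.hy
  have hδ := D.hδ
  have hδ1 := D.hδ1
  set l := δ / 3 with hl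
  have hl0 : 0 < l := by positivity
  have hl1 : l ≤ 1 := by linarith
  have hW := Wd_ge hy
  have hκ := kap_pos hy
  have hke := kap_exp hy
  have hey : 1 ≤ Real.exp y := Real.one_le_exp (by linarith)
  have hT0' := abs_le.1 hT0
  have huc : ‖(starRingEnd ℂ) u‖ = 1 := by rw [norm_conj, hu]
  have huc2 : ‖(starRingEnd ℂ) u ^ 2‖ = 1 := by rw [norm_pow, huc, one_pow]
  have huu : (starRingEnd ℂ) u * u = 1 := by
    rw [mul_comm, mul_conj, normSq_eq_norm_sq, hu]; simp
  -- the geometry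
  have hgeo : ∀ s : ℂ, InR T0 (Wd y) s → 1 / 2 ≤ (sc T0 l s).re ∧ (sc T0 l s).re ≤ 1 / 2 + δ ∧
      |(sc T0 l s).im - T0| ≤ Wd y ∧ |(sc T0 l s).im - T| ≤ R := by
    intro s hs
    have a1 : |(sc T0 l s).im - T0| ≤ Wd y := by
      rw [sc_im, add_sub_cancel_left, abs_mul, abs_of_pos hl0]
      calc l * |s.im - T0| ≤ 1 * Wd y := mul_le_mul hl1 hs.2.2 (abs_nonneg _) (by norm_num)
        _ = Wd y := one_mul _
    refine ⟨?_, ?_, a1, ?_⟩
    · rw [sc_re]
      have : 0 ≤ l * (s.re - 1 / 2) := mul_nonneg hl0.le (by linarith [hs.1])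
      linarith
    · rw [sc_re]
      have : l * (s.re - 1 / 2) ≤ l * 3 := mul_le_mul_of_nonneg_left (by linarith [hs.2.1]) hl0.le
      rw [hl] at this ⊢
      linarith
    · have a2 := abs_le.1 a1
      rw [abs_le]
      constructor <;> linarith [a2.1, a2.2, hT0'.1, hT0'.2]
  have hline : ∀ t : ℝ, |t - T0| ≤ Wd y → |T0 + l * (t - T0) - T0| ≤ Wd y ∧
      |T0 + l * (t - T0) - T| ≤ R - 1 := by
    intro t ht
    have a1 : |T0 + l * (t - T0) - T0| ≤ Wd y := by
      rw [add_sub_cancel_left, abs_mul, abs_of_pos hl0]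
      calc l * |t - T0| ≤ 1 * Wd y := mul_le_mul hl1 ht (abs_nonneg _) (by norm_num)
        _ = Wd y := one_mul _
    refine ⟨a1, ?_⟩
    have a2 := abs_le.1 a1
    rw [abs_le]
    constructor <;> linarith [a2.1, a2.2, hT0'.1, hT0'.2]
  have hDat : Data (fun s => (starRingEnd ℂ) u * f (sc T0 l s))
      (fun s => (starRingEnd ℂ) u ^ 2 * X (sc T0 l s)) T0 (Wd y) (kap y) (Real.exp y) B (M + 1) := by
    refine ⟨hW, hκ, ?_, hey, hB1, by linarith, ?_, ?_, ?_, ?_, ?_, ?_, ?_, ?_, ?_⟩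
    · nlinarith [mul_pos hκ (by linarith : 0 < y)]
    · intro s _
      exact (((D.fd _).comp s (sc_deriv T0 l s).differentiableAt)).const_mul _
    · intro s hs
      obtain ⟨g1, g2, g3, g4⟩ := hgeo s hs
      exact ((D.Xd _ g4 g1 g2).differentiableAt.comp s (sc_deriv T0 l s).differentiableAt).const_mul _
    · intro s hs
      obtain ⟨g1, g2, g3, g4⟩ := hgeo s hs
      rw [norm_mul, huc, one_mul]
      exact D.crude _ g4 (by linarith) (by linarith)
    · intro s hs
      obtain ⟨g1, g2, g3, g4⟩ := hgeo s hs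
      rw [norm_mul, huc2, one_mul]
      exact D.X1 _ g4 g1 g2
    · intro t ht
      obtain ⟨g1, g2⟩ := hline t ht
      show ‖(starRingEnd ℂ) u ^ 2 * X (sc T0 l (cp t))‖ = 1
      rw [norm_mul, huc2, one_mul, sc_line]
      exact D.Xline _ (by linarith)
    · intro t ht
      obtain ⟨g1, g2⟩ := hline t ht
      show (starRingEnd ℂ) u * f (sc T0 l (cp t)) = ((starRingEnd ℂ) u ^ 2 * X (sc T0 l (cp t))) *
        (starRingEnd ℂ) ((starRingEnd ℂ) u * f (sc T0 l (cp t)))
      rw [sc_line, map_mul, conj_conj]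
      have hf := D.fe (T0 + l * (t - T0)) (by linarith)
      calc (starRingEnd ℂ) u * f (cp (T0 + l * (t - T0)))
          = (starRingEnd ℂ) u * (X (cp (T0 + l * (t - T0))) *
              (starRingEnd ℂ) (f (cp (T0 + l * (t - T0))))) := by rw [← hf]
        _ = _ := by
          linear_combination (-(starRingEnd ℂ) u * X (cp (T0 + l * (t - T0))) *
            (starRingEnd ℂ) (f (cp (T0 + l * (t - T0))))) * huu
    · intro s hs hs2
      obtain ⟨g1, g2, g3, g4⟩ := hgeo s hs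
      have hre : (sc T0 l s).re = 1 / 2 + δ ∨ (sc T0 l s).re = 1 / 2 + δ / 2 := by
        rcases hs2 with h | h
        · left; rw [sc_re, h, hl]; ring
        · right
          rw [sc_re, h, hl]
          simp
          ring
      refine ⟨?_, ?_⟩
      · rw [norm_mul, huc2, one_mul]
        apply D.X2 _ g4 _ g2
        rcases hre with h | h <;> rw [h] <;> linarith
      · rw [norm_mul, huc, one_mul]
        exact hB _ g3 hre
    · intro t ht h
      obtain ⟨g1, g2⟩ := hline t ht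
      have h' : ‖1 - (starRingEnd ℂ) u ^ 2 * X (cp (T0 + l * (t - T0)))‖ ≤ kap y := by
        rw [← sc_line]; exact h
      show ((starRingEnd ℂ) u * f (sc T0 l (cp t))).re ≤ M + 1
      rw [sc_line]
      refine D.near hu g2 (fun v r hv hr => hM v r ?_ hr) h'
      have a1 := abs_le.1 hv
      have a2 := abs_le.1 g1
      rw [abs_le]
      constructor <;> linarith [a1.1, a1.2, a2.1, a2.2]
    · rw [exp_Wd hy]
      have h2 : kap y ^ 2 / (8 * Real.exp y ^ 2) = 1 / (8 * 4096 * y ^ 2 * Real.exp y ^ 4) := by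
        unfold kap
        have := Real.exp_pos y
        field_simp
        ring
      rw [h2, le_div_iff₀ (by positivity)]
      have h3 : y ≤ Real.exp y := by
        have := Real.add_one_le_exp y
        linarith
      have h4 : y ^ 2 ≤ Real.exp y ^ 2 := pow_le_pow_left₀ (by linarith) h3 2
      have h5 : (8 * 4096 : ℝ) ≤ Real.exp y ^ 11 := by
        have h6 : (2.7 : ℝ) ≤ Real.exp y := by
          have h7 := Real.exp_one_gt_d9
          have h8 := Real.exp_le_exp.2 hy
          linarith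
        calc (8 * 4096 : ℝ) ≤ 2.7 ^ 11 := by norm_num
          _ ≤ Real.exp y ^ 11 := pow_le_pow_left₀ (by norm_num) h6 11
      have h6 : Real.exp (-(17 * y)) = (Real.exp y ^ 17)⁻¹ := by
        rw [Real.exp_neg, ← Real.exp_nat_mul]
        norm_num
      rw [h6, inv_mul_le_iff₀ (by positivity), mul_one]
      calc 8 * 4096 * y ^ 2 * Real.exp y ^ 4 ≤ Real.exp y ^ 11 * Real.exp y ^ 2 * Real.exp y ^ 4 := by
            gcongr
        _ = Real.exp y ^ 17 := by ring
  have h := hDat.bound h0 h1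
  have e : sc T0 l (1 / 2 + (η : ℂ) + (T0 : ℂ) * I) = 1 / 2 + ((l * η : ℝ) : ℂ) + (T0 : ℂ) * I := by
    apply Complex.ext
    · rw [sc_re]; simp
    · rw [sc_im]; simp
  rw [e, norm_mul, huc, one_mul] at h
  exact h

/-- the local three lines theorem -/
theorem step2 (D : Loc f X L T R Λ A δ G) {F t0 : ℝ} (hF : 1 ≤ F) (hF2 : F ≤ Real.exp (A * Λ))
    (ht0 : |t0 - T| ≤ R - Wd (A * Λ))
    (h : ∀ t : ℝ, |t - t0| ≤ Wd (A * Λ) → ‖f (cp t)‖ ≤ F) {s0 : ℂ} (hs0 : s0.im = t0)
    (hs1 : 1 / 2 ≤ s0.re) (hs2 : s0.re ≤ 5 / 4) :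
    ‖f s0‖ ≤ 3 * F * (G / F) ^ (4 / 3 * (s0.re - 1 / 2)) := by
  set y := A * Λ with hyd
  have hy := D.hy
  have hG := D.hG
  have hW := Wd_ge hy
  have hGF : 0 < G / F := by positivity
  set β : ℝ := 4 / 3 * Real.log (G / F) with hβ
  set g : ℂ → ℂ := fun s => f s * ker t0 s * cexp (-((β : ℂ) * (s - 1 / 2))) with hg
  have hgn : ∀ s : ℂ, ‖g s‖ = ‖f s‖ * ‖ker t0 s‖ * Real.exp (-(β * (s.re - 1 / 2))) := by
    intro s
    rw [hg]
    simp only
    rw [norm_mul, norm_mul, norm_exp]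
    congr 2
    simp
  have hβb : ∀ x : ℝ, 0 ≤ x → x ≤ 3 / 4 → Real.exp (-(β * x)) ≤ Real.exp y := by
    intro x hx0 hx1
    apply Real.exp_le_exp.2
    rw [hβ, Real.log_div (by positivity) (by positivity)]
    have l1 : Real.log F ≤ y := by
      rw [Real.log_le_iff_le_exp (by positivity)]; exact hF2
    have l2 : 0 ≤ Real.log G := Real.log_nonneg hG
    have l3 : 0 ≤ Real.log F := Real.log_nonneg hF
    nlinarith [mul_nonneg l2 hx0, mul_nonneg l3 hx0]
  set U : Set ℂ := (Ioo (1 / 2 : ℝ) (5 / 4)) ×ℂ (Ioo (t0 - Wd y) (t0 + Wd y)) with hU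
  have hcl : closure U = (Icc (1 / 2 : ℝ) (5 / 4)) ×ℂ (Icc (t0 - Wd y) (t0 + Wd y)) := by
    rw [hU, closure_reProdIm, closure_Ioo (by norm_num), closure_Ioo (by linarith)]
  have hin : ∀ z ∈ closure U, 1 / 2 ≤ z.re ∧ z.re ≤ 5 / 4 ∧ |z.im - t0| ≤ Wd y ∧
      |z.im - T| ≤ R := by
    intro z hz
    rw [hcl, mem_reProdIm] at hz
    have h1 := abs_le.1 ht0
    exact ⟨hz.1.1, hz.1.2, abs_le.2 ⟨by linarith [hz.2.1], by linarith [hz.2.2]⟩,
      abs_le.2 ⟨by linarith [hz.2.1, h1.1], by linarith [hz.2.2, h1.2]⟩⟩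
  have hbd : Bornology.IsBounded U := (isBounded_Ioo _ _).reProdIm (isBounded_Ioo _ _)
  have hd : DiffContOnCl ℂ g U := by
    apply Differentiable.diffContOnCl
    have h1 := D.fd
    have h2 := ker_diff t0
    rw [hg]
    fun_prop
  have hfr : ∀ z ∈ frontier U, ‖g z‖ ≤ F := by
    intro z hz
    obtain ⟨h1, h2, h3, h4⟩ := hin z (frontier_subset_closure hz)
    rw [hgn]
    have hk1 := norm_ker_le_one (T := t0) (s := z) (by linarith) (by linarith)
    rw [hU, frontier_reProdIm, closure_Ioo (by norm_num), frontier_Ioo (by linarith),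
      frontier_Ioo (by norm_num)] at hz
    rcases hz with hz | hz
    · rw [mem_reProdIm] at hz
      have h6 : |z.im - t0| = Wd y := by
        rcases hz.2 with h | h
        · rw [h, abs_of_nonpos (by linarith)]; ring
        · rw [mem_singleton_iff] at h
          rw [h, abs_of_nonneg (by linarith)]; ring
      have h7 := norm_ker_le (T := t0) (s := z) (by linarith) (by linarith)
      rw [h6, exp_Wd hy] at h7
      have h8 := D.crude z h4 (by linarith) h2
      have h9 := hβb (z.re - 1 / 2) (by linarith) (by linarith)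
      calc ‖f z‖ * ‖ker t0 z‖ * Real.exp (-(β * (z.re - 1 / 2)))
          ≤ Real.exp y * Real.exp (-(17 * y)) * Real.exp y := by gcongr
        _ = Real.exp (-(15 * y)) := by rw [← Real.exp_add, ← Real.exp_add]; congr 1; ring
        _ ≤ 1 := by rw [Real.exp_le_one_iff]; linarith
        _ ≤ F := hF
    · rw [mem_reProdIm] at hz
      rcases hz.1 with h5 | h5
      · have h6 := h z.im h3
        rw [← eq_cp h5] at h6
        have e1 : Real.exp (-(β * (z.re - 1 / 2))) = 1 := by rw [h5]; simp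
        rw [e1, mul_one]
        calc ‖f z‖ * ‖ker t0 z‖ ≤ F * 1 := mul_le_mul h6 hk1 (norm_nonneg _) (by linarith)
          _ = F := mul_one _
      · rw [mem_singleton_iff] at h5
        have h6 := D.right z h4 h5
        have e1 : Real.exp (-(β * (z.re - 1 / 2))) = F / G := by
          rw [h5, hβ]
          have e2 : -(4 / 3 * Real.log (G / F) * (5 / 4 - 1 / 2)) = Real.log (F / G) := by
            rw [Real.log_div (by positivity) (by positivity), Real.log_div (by positivity) (by positivity)]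
            ring
          rw [e2, Real.exp_log (by positivity)]
        rw [e1]
        calc ‖f z‖ * ‖ker t0 z‖ * (F / G) ≤ G * 1 * (F / G) := by gcongr
          _ = F := by field_simp
  have hsc : s0 ∈ closure U := by
    rw [hcl, mem_reProdIm, hs0]
    exact ⟨⟨hs1, hs2⟩, ⟨by linarith, by linarith⟩⟩
  have h3 := norm_le_of_forall_mem_frontier_norm_le hbd hd hfr hsc
  rw [hgn] at h3
  have hk := norm_ker_ge hs0
  have e1 : Real.exp (-(β * (s0.re - 1 / 2))) = ((G / F) ^ (4 / 3 * (s0.re - 1 / 2)))⁻¹ := by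
    rw [Real.rpow_def_of_pos hGF, ← Real.exp_neg]
    congr 1
    rw [hβ]; ring
  rw [e1] at h3
  have hp : 0 < (G / F) ^ (4 / 3 * (s0.re - 1 / 2)) := by positivity
  rw [← div_eq_mul_inv, div_le_iff₀ hp] at h3
  have h4 : ‖f s0‖ * (1 / 3) ≤ ‖f s0‖ * ‖ker t0 s0‖ := mul_le_mul_of_nonneg_left hk (norm_nonneg _)
  linarith

/-- from the right of the critical line to the critical line -/
theorem step3 (D : Loc f X L T R Λ A δ G) {x b T0 : ℝ} (hx0 : 0 < x) (hx1 : x ≤ 1 / 4) (hb : 1 ≤ b)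
    (hA : 0 ≤ A * (x * Λ + 1))
    (hT0 : |T0 - T| ≤ R - Wd (A * Λ))
    (h : ∀ t : ℝ, |t - T0| ≤ Wd (A * Λ) → ‖f (1 / 2 + (x : ℂ) + (t : ℂ) * I)‖ ≤ b) :
    ‖f (cp T0)‖ ≤ 3 * Real.exp (A * (x * Λ + 1)) * b := by
  set y := A * Λ with hyd
  have hy := D.hy
  have hW := Wd_ge hy
  have hE : 1 ≤ Real.exp (A * (x * Λ + 1)) := Real.one_le_exp hA
  have hEb : 1 ≤ Real.exp (A * (x * Λ + 1)) * b := by nlinarith
  set U : Set ℂ := (Ioo (1 / 2 - x) (1 / 2 + x)) ×ℂ (Ioo (T0 - Wd y) (T0 + Wd y)) with hU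
  have hcl : closure U = (Icc (1 / 2 - x) (1 / 2 + x)) ×ℂ (Icc (T0 - Wd y) (T0 + Wd y)) := by
    rw [hU, closure_reProdIm, closure_Ioo (by linarith), closure_Ioo (by linarith)]
  have hin : ∀ z ∈ closure U, 1 / 4 ≤ z.re ∧ z.re ≤ 3 / 4 ∧ |z.im - T0| ≤ Wd y ∧
      |z.im - T| ≤ R := by
    intro z hz
    rw [hcl, mem_reProdIm] at hz
    have h1 := abs_le.1 hT0
    exact ⟨by linarith [hz.1.1], by linarith [hz.1.2],
      abs_le.2 ⟨by linarith [hz.2.1], by linarith [hz.2.2]⟩,
      abs_le.2 ⟨by linarith [hz.2.1, h1.1], by linarith [hz.2.2, h1.2]⟩⟩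
  have hbd : Bornology.IsBounded U := (isBounded_Ioo _ _).reProdIm (isBounded_Ioo _ _)
  have hd : DiffContOnCl ℂ (fun z => f z * ker T0 z) U := by
    apply Differentiable.diffContOnCl
    have h1 := D.fd
    have h2 := ker_diff T0
    fun_prop
  have hfr : ∀ z ∈ frontier U, ‖f z * ker T0 z‖ ≤ Real.exp (A * (x * Λ + 1)) * b := by
    intro z hz
    obtain ⟨h1, h2, h3, h4⟩ := hin z (frontier_subset_closure hz)
    rw [norm_mul]
    have hk1 := norm_ker_le_one (T := T0) (s := z) (by linarith) (by linarith)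
    rw [hU, frontier_reProdIm, closure_Ioo (by linarith), frontier_Ioo (by linarith),
      frontier_Ioo (by linarith)] at hz
    rcases hz with hz | hz
    · rw [mem_reProdIm] at hz
      have h6 : |z.im - T0| = Wd y := by
        rcases hz.2 with h | h
        · rw [h, abs_of_nonpos (by linarith)]; ring
        · rw [mem_singleton_iff] at h
          rw [h, abs_of_nonneg (by linarith)]; ring
      have h7 := norm_ker_le (T := T0) (s := z) (by linarith) (by linarith)
      rw [h6, exp_Wd hy] at h7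
      have h8 := D.crude z h4 (by linarith) (by linarith)
      calc ‖f z‖ * ‖ker T0 z‖ ≤ Real.exp y * Real.exp (-(17 * y)) := by gcongr
        _ = Real.exp (-(16 * y)) := by rw [← Real.exp_add]; congr 1; ring
        _ ≤ 1 := by rw [Real.exp_le_one_iff]; linarith
        _ ≤ _ := hEb
    · rw [mem_reProdIm] at hz
      rcases hz.1 with h5 | h5
      · have e1 : z = 1 / 2 - (x : ℂ) + (z.im : ℂ) * I := by
          apply Complex.ext
          · simp [h5]
          · simp
        have h6 := D.refl x z.im h4 hx0.le hx1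
        rw [← e1] at h6
        have h7 := h z.im h3
        calc ‖f z‖ * ‖ker T0 z‖ ≤ (Real.exp (A * (x * Λ + 1)) * b) * 1 := by
              apply mul_le_mul _ hk1 (norm_nonneg _) (by positivity)
              exact h6.trans (mul_le_mul_of_nonneg_left h7 (Real.exp_pos _).le)
          _ = _ := mul_one _
      · rw [mem_singleton_iff] at h5
        have e1 : z = 1 / 2 + (x : ℂ) + (z.im : ℂ) * I := by
          apply Complex.ext
          · simp [h5]
          · simp
        have h7 := h z.im h3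
        rw [← e1] at h7
        calc ‖f z‖ * ‖ker T0 z‖ ≤ b * 1 := mul_le_mul h7 hk1 (norm_nonneg _) (by linarith)
          _ ≤ _ := by rw [mul_one]; exact le_mul_of_one_le_left (by linarith) hE
  have hsc : cp T0 ∈ closure U := by
    rw [hcl, mem_reProdIm, cp_re, cp_im]
    exact ⟨⟨by linarith, by linarith⟩, ⟨by linarith, by linarith⟩⟩
  have h3 := norm_le_of_forall_mem_frontier_norm_le hbd hd hfr hsc
  rw [norm_mul] at h3
  have hk := norm_ker_ge (T := T0) (s := cp T0) (by simp)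
  have h4 : ‖f (cp T0)‖ * (1 / 3) ≤ ‖f (cp T0)‖ * ‖ker T0 (cp T0)‖ :=
    mul_le_mul_of_nonneg_left hk (norm_nonneg _)
  linarith

end Loc

end Pool.Agent.W188.GLR
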