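import Mathlib
import Pool.Agent.W188.GLR.G4

set_option autoImplicit false

open Complex Filter Topology Set Metric

namespace Pool.Agent.W188.GLR

open Pool.Agent.W188.Ray

namespace Loc

variable {f X L : ℂ → ℂ} {T R Λ A δ G : ℝ}

/-- the loss of one step -/
noncomputable def Pl (A δ η Λ G : ℝ) : ℝ := 1800 / η * Real.exp (A * (δ / 3 * η * Λ + 1)) * G

lemma pow_bd {F G θ c : ℝ} (hF : 1 ≤ F) (hG : 1 ≤ G) (hc : c ≤ θ) (hθ : θ ≤ 1) (_hθ0 : 0 ≤ θ) :
    3 * F * (G / F) ^ θ ≤ 3 * (G * F ^ (1 - c)) := by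
  have hF0 : 0 < F := by linarith
  rw [Real.div_rpow (by linarith) (by linarith)]
  have h1 : F * (G ^ θ / F ^ θ) = G ^ θ * F ^ (1 - θ) := by
    rw [Real.rpow_sub hF0, Real.rpow_one]
    ring
  rw [mul_assoc, h1]
  have h2 : G ^ θ ≤ G := by
    calc G ^ θ ≤ G ^ (1 : ℝ) := Real.rpow_le_rpow_of_exponent_le hG hθ
      _ = G := Real.rpow_one G
  have h3 : F ^ (1 - θ) ≤ F ^ (1 - c) := Real.rpow_le_rpow_of_exponent_le hF (by linarith)
  have h4 : 0 ≤ F ^ (1 - θ) := by positivity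
  have h5 : G ^ θ * F ^ (1 - θ) ≤ G * F ^ (1 - c) := mul_le_mul h2 h3 h4 (by linarith)
  linarith

/-- one improvement step -/
theorem step (D : Loc f X L T R Λ A δ G) {u : ℂ} (hu : ‖u‖ = 1) {M F T0 η : ℝ}
    (hA : 0 ≤ A) (hΛ : 0 ≤ Λ) (h0 : 0 < η) (h1 : η ≤ 1 / 2)
    (hT0 : |T0 - T| ≤ R - (3 * Wd (A * Λ) + 2)) (hM1 : 1 ≤ M)
    (hF : 1 ≤ F) (hF2 : F ≤ Real.exp (A * Λ))
    (hM : ∀ v r : ℝ, |v - T0| ≤ 3 * Wd (A * Λ) + 2 → f (cp v) = r * u → r ≤ M)
    (h : ∀ t : ℝ, |t - T0| ≤ 3 * Wd (A * Λ) → ‖f (cp t)‖ ≤ F) :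
    ‖f (cp T0)‖ ≤ Pl A δ η Λ G * max M (F ^ (1 - 2 * δ / 3)) := by
  set y := A * Λ with hyd
  have hy := D.hy
  have hδ := D.hδ
  have hδ1 := D.hδ1
  have hG := D.hG
  have hW := Wd_ge hy
  have hT0' := abs_le.1 hT0
  set B : ℝ := 3 * (G * F ^ (1 - 2 * δ / 3)) with hB
  have hFc : 1 ≤ F ^ (1 - 2 * δ / 3) := Real.one_le_rpow hF (by linarith)
  have hB1 : 1 ≤ B := by nlinarith
  have hright : ∀ t : ℝ, |t - T0| ≤ Wd y →
      ‖f (1 / 2 + ((δ / 3 * η : ℝ) : ℂ) + (t : ℂ) * I)‖ ≤ 120 * (M + 1 + B) / η := by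
    intro t ht
    have ht' := abs_le.1 ht
    refine D.step1 hu (T0 := t) (M := M) (B := B) ?_ hM1 hB1 ?_ ?_ h0 h1
    · rw [abs_le]; constructor <;> linarith [ht'.1, ht'.2, hT0'.1, hT0'.2]
    · intro v r hv hr
      have hv' := abs_le.1 hv
      refine hM v r ?_ hr
      rw [abs_le]; constructor <;> linarith [ht'.1, ht'.2, hv'.1, hv'.2]
    · intro s hs hre
      have hs' := abs_le.1 hs
      have h2 := D.step2 (F := F) (t0 := s.im) hF hF2
        (by rw [abs_le]; constructor <;> linarith [ht'.1, ht'.2, hT0'.1, hT0'.2, hs'.1, hs'.2])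
        (fun t' ht1 => by
          have ht1' := abs_le.1 ht1
          apply h
          rw [abs_le]; constructor <;> linarith [ht'.1, ht'.2, hs'.1, hs'.2, ht1'.1, ht1'.2])
        (s0 := s) rfl (by rcases hre with e | e <;> rw [e] <;> linarith)
        (by rcases hre with e | e <;> rw [e] <;> linarith)
      refine h2.trans ?_
      apply pow_bd hF hG
      · rcases hre with e | e <;> rw [e] <;> linarith
      · rcases hre with e | e <;> rw [e] <;> linarith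
      · rcases hre with e | e <;> rw [e] <;> linarith
  have hb : 1 ≤ 120 * (M + 1 + B) / η := by
    rw [le_div_iff₀ h0]; linarith
  have hx0 : 0 < δ / 3 * η := by positivity
  have hx1 : δ / 3 * η ≤ 1 / 4 := by nlinarith
  have hexp0 : 0 ≤ A * (δ / 3 * η * Λ + 1) := by positivity
  have h3 := D.step3 (x := δ / 3 * η) (T0 := T0) hx0 hx1 hb hexp0
    (by rw [abs_le]; constructor <;> linarith [hT0'.1, hT0'.2]) hright
  refine h3.trans ?_
  unfold Pl
  set E := Real.exp (A * (δ / 3 * η * Λ + 1)) with hE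
  have hE0 : 0 < E := Real.exp_pos _
  set N := max M (F ^ (1 - 2 * δ / 3)) with hN
  have hN1 : M ≤ N := le_max_left _ _
  have hN2 : F ^ (1 - 2 * δ / 3) ≤ N := le_max_right _ _
  have h4 : M + 1 + B ≤ 5 * G * N := by
    have h5 : G * F ^ (1 - 2 * δ / 3) ≤ G * N := mul_le_mul_of_nonneg_left hN2 (by linarith)
    have h6 : M ≤ G * N := by nlinarith
    have h7 : 1 ≤ G * N := by linarith
    rw [hB]
    linarith
  calc 3 * E * (120 * (M + 1 + B) / η) = 360 / η * E * (M + 1 + B) := by ring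
    _ ≤ 360 / η * E * (5 * G * N) := mul_le_mul_of_nonneg_left h4 (by positivity)
    _ = 1800 / η * E * G * N := by ring

/-- the induction -/
theorem iter (D : Loc f X L T R Λ A δ G) {u : ℂ} (hu : ‖u‖ = 1) {M η : ℝ}
    (hA : 0 ≤ A) (hΛ : 0 ≤ Λ) (h0 : 0 < η) (h1 : η ≤ 1 / 2) (hM1 : 1 ≤ M) (n : ℕ) :
    ∀ T0 : ℝ, |T0 - T| ≤ R - n * (3 * Wd (A * Λ) + 2) →
    (∀ v r : ℝ, |v - T0| ≤ n * (3 * Wd (A * Λ) + 2) → f (cp v) = r * u → r ≤ M) →
    ‖f (cp T0)‖ ≤ Pl A δ η Λ G ^ n * M * Real.exp (A * Λ * (1 - 2 * δ / 3) ^ n) := by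
  set y := A * Λ with hyd
  have hy := D.hy
  have hδ := D.hδ
  have hδ1 := D.hδ1
  have hG := D.hG
  have hW := Wd_ge hy
  have hP : 1 ≤ Pl A δ η Λ G := by
    unfold Pl
    have e1 : 1 ≤ 1800 / η := by rw [le_div_iff₀ h0]; linarith
    have e2 : 1 ≤ Real.exp (A * (δ / 3 * η * Λ + 1)) := Real.one_le_exp (by positivity)
    have e3 : 1 ≤ 1800 / η * Real.exp (A * (δ / 3 * η * Λ + 1)) := by nlinarith
    nlinarith
  set c := 1 - 2 * δ / 3 with hc
  have hc0 : 0 ≤ c := by rw [hc]; linarith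
  have hc1 : c ≤ 1 := by rw [hc]; linarith
  induction n with
  | zero =>
    intro T0 hT0 _
    have h2 := D.crude (cp T0) (by simpa using hT0) (by simp) (by simp; norm_num)
    simp only [pow_zero, one_mul, mul_one]
    refine h2.trans ?_
    exact le_mul_of_one_le_left (Real.exp_pos _).le hM1
  | succ n ih =>
    intro T0 hT0 hM
    push_cast at hT0 hM
    have hT0' := abs_le.1 hT0
    have hn : (0 : ℝ) ≤ n := Nat.cast_nonneg n
    have hnW : 0 ≤ (n : ℝ) * (3 * Wd y + 2) := mul_nonneg hn (by linarith)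
    set F1 : ℝ := Pl A δ η Λ G ^ n * M * Real.exp (y * c ^ n) with hF1
    have hPn : 1 ≤ Pl A δ η Λ G ^ n := one_le_pow₀ hP
    have hPM : 1 ≤ Pl A δ η Λ G ^ n * M := by nlinarith
    have hcn : 0 ≤ c ^ n := pow_nonneg hc0 n
    have hex : 1 ≤ Real.exp (y * c ^ n) := Real.one_le_exp (mul_nonneg (by linarith) hcn)
    have hF11 : 1 ≤ F1 := by rw [hF1]; nlinarith
    set F : ℝ := min F1 (Real.exp y) with hF
    have hFy : 1 ≤ Real.exp y := Real.one_le_exp (by linarith)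
    have hF' : 1 ≤ F := le_min hF11 hFy
    have hs := D.step hu (M := M) (F := F) (T0 := T0) (η := η) hA hΛ h0 h1
      (by rw [abs_le]; constructor <;> linarith [hT0'.1, hT0'.2]) hM1 hF' (min_le_right _ _)
      (fun v r hv hr => hM v r (by linarith) hr)
      (by
        intro t ht
        have ht' := abs_le.1 ht
        apply le_min
        · apply ih t
          · rw [abs_le]; constructor <;> linarith [hT0'.1, hT0'.2, ht'.1, ht'.2]
          · intro v r hv hr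
            have hv' := abs_le.1 hv
            refine hM v r ?_ hr
            rw [abs_le]; constructor <;> linarith [hv'.1, hv'.2, ht'.1, ht'.2]
        · apply D.crude (cp t) _ (by simp) (by simp; norm_num)
          rw [cp_im, abs_le]
          constructor <;> linarith [hT0'.1, hT0'.2, ht'.1, ht'.2])
    refine hs.trans ?_
    have h2 : F ^ c ≤ F1 ^ c := Real.rpow_le_rpow (by linarith) (min_le_left _ _) hc0
    have h3 : F1 ^ c ≤ Pl A δ η Λ G ^ n * M * Real.exp (y * c ^ (n + 1)) := by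
      rw [hF1, Real.mul_rpow (by positivity) (Real.exp_pos _).le]
      apply mul_le_mul
      · calc (Pl A δ η Λ G ^ n * M) ^ c ≤ (Pl A δ η Λ G ^ n * M) ^ (1 : ℝ) :=
            Real.rpow_le_rpow_of_exponent_le hPM hc1
          _ = _ := Real.rpow_one _
      · rw [← Real.exp_mul]
        apply Real.exp_le_exp.2
        rw [pow_succ]
        apply le_of_eq; ring
      · positivity
      · positivity
    have hex2 : 1 ≤ Real.exp (y * c ^ (n + 1)) :=
      Real.one_le_exp (mul_nonneg (by linarith) (pow_nonneg hc0 _))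
    have h4 : max M (F ^ c) ≤ Pl A δ η Λ G ^ n * M * Real.exp (y * c ^ (n + 1)) := by
      apply max_le _ (h2.trans h3)
      have e1 : M ≤ Pl A δ η Λ G ^ n * M := le_mul_of_one_le_left (by linarith) hPn
      exact e1.trans (le_mul_of_one_le_right (by linarith) hex2)
    calc Pl A δ η Λ G * max M (F ^ c) ≤ Pl A δ η Λ G *
          (Pl A δ η Λ G ^ n * M * Real.exp (y * c ^ (n + 1))) :=
          mul_le_mul_of_nonneg_left h4 (by linarith)
      _ = _ := by rw [pow_succ (Pl A δ η Λ G)]; ring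

end Loc

/-- **the local theorem** -/
theorem main {A δ ε : ℝ} (hA : 1 ≤ A) (hδ : 0 < δ) (hδ1 : δ ≤ 1 / 2) (hε : 0 < ε) :
    ∃ (n : ℕ) (ε₀ Λ₀ : ℝ), 0 < ε₀ ∧ 1 ≤ Λ₀ ∧ ∀ (f X L : ℂ → ℂ) (T R Λ G : ℝ),
      Loc f X L T R Λ A δ G → G ≤ Real.exp (ε₀ * Λ) → Λ₀ ≤ Λ →
      n * (3 * Wd (A * Λ) + 2) ≤ R → ∀ u : ℂ, ‖u‖ = 1 → ∀ M : ℝ, 1 ≤ M →
      (∀ v r : ℝ, |v - T| ≤ n * (3 * Wd (A * Λ) + 2) → f (cp v) = r * u → r ≤ M) →
      ‖f (cp T)‖ ≤ M * Real.exp (ε * Λ) := by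
  set c := 1 - 2 * δ / 3 with hc
  have hc0 : 0 ≤ c := by rw [hc]; linarith
  have hc1 : c < 1 := by rw [hc]; linarith
  have hA0 : 0 < A := by linarith
  obtain ⟨n, hn⟩ : ∃ n : ℕ, c ^ n < ε / (2 * A) := exists_pow_lt_of_lt_one (by positivity) hc1
  have hn' : A * c ^ n ≤ ε / 2 := by
    rw [lt_div_iff₀ (by positivity)] at hn
    linarith
  set ε₁ := ε / (2 * (n + 1)) with hε₁
  have hε₁0 : 0 < ε₁ := by positivity
  have hnε : n * ε₁ ≤ ε / 2 := by
    rw [hε₁, mul_div_assoc', div_le_div_iff₀ (by positivity) (by norm_num)]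
    nlinarith
  set η := min (1 / 2) (ε₁ / (A * δ)) with hη
  have hη0 : 0 < η := lt_min (by norm_num) (by positivity)
  have hη1 : η ≤ 1 / 2 := min_le_left _ _
  have hη2 : A * (δ / 3 * η) ≤ ε₁ / 3 := by
    have h1 : η ≤ ε₁ / (A * δ) := min_le_right _ _
    rw [le_div_iff₀ (by positivity)] at h1
    linarith
  set Λ₀ := max 1 (3 * (Real.log (1800 / η) + A) / ε₁) with hΛ₀
  refine ⟨n, ε₁ / 3, Λ₀, by positivity, le_max_left _ _, ?_⟩
  intro f X L T R Λ G D hG hΛ hR u hu M hM1 hM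
  have hΛ1 : 1 ≤ Λ := (le_max_left _ _).trans hΛ
  have hΛ2 : Real.log (1800 / η) + A ≤ ε₁ / 3 * Λ := by
    have h1 := (le_max_right _ _).trans hΛ
    rw [div_le_iff₀ hε₁0] at h1
    linarith
  have h := D.iter hu (M := M) (η := η) hA0.le (by linarith) hη0 hη1 hM1 n T
    (by rw [sub_self, abs_zero]; linarith) hM
  refine h.trans ?_
  have hPl : Loc.Pl A δ η Λ G ≤ Real.exp (ε₁ * Λ) := by
    unfold Loc.Pl
    have e1 : 1800 / η = Real.exp (Real.log (1800 / η)) := (Real.exp_log (by positivity)).symm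
    rw [e1, ← Real.exp_add]
    calc Real.exp (Real.log (1800 / η) + A * (δ / 3 * η * Λ + 1)) * G
        ≤ Real.exp (Real.log (1800 / η) + A * (δ / 3 * η * Λ + 1)) * Real.exp (ε₁ / 3 * Λ) :=
          mul_le_mul_of_nonneg_left hG (Real.exp_pos _).le
      _ = Real.exp (Real.log (1800 / η) + A * (δ / 3 * η * Λ + 1) + ε₁ / 3 * Λ) := by
          rw [← Real.exp_add]
      _ ≤ _ := by
          apply Real.exp_le_exp.2
          have h2 : A * (δ / 3 * η) * Λ ≤ ε₁ / 3 * Λ := mul_le_mul_of_nonneg_right hη2 (by linarith)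
          have h3 : A * (δ / 3 * η * Λ + 1) = A * (δ / 3 * η) * Λ + A := by ring
          rw [h3]
          linarith
  have hG0 := D.hG
  have hP0 : 0 ≤ Loc.Pl A δ η Λ G := by unfold Loc.Pl; positivity
  have h5 : Loc.Pl A δ η Λ G ^ n ≤ Real.exp (ε / 2 * Λ) := by
    calc Loc.Pl A δ η Λ G ^ n ≤ Real.exp (ε₁ * Λ) ^ n := pow_le_pow_left₀ hP0 hPl n
      _ = Real.exp (n * (ε₁ * Λ)) := by rw [← Real.exp_nat_mul]
      _ ≤ _ := by
        apply Real.exp_le_exp.2
        rw [← mul_assoc]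
        exact mul_le_mul_of_nonneg_right hnε (by linarith)
  have h6 : Real.exp (A * Λ * c ^ n) ≤ Real.exp (ε / 2 * Λ) := by
    apply Real.exp_le_exp.2
    calc A * Λ * c ^ n = A * c ^ n * Λ := by ring
      _ ≤ _ := mul_le_mul_of_nonneg_right hn' (by linarith)
  calc Loc.Pl A δ η Λ G ^ n * M * Real.exp (A * Λ * c ^ n)
      ≤ Real.exp (ε / 2 * Λ) * M * Real.exp (ε / 2 * Λ) := by gcongr
    _ = M * Real.exp (ε * Λ) := by
      rw [mul_comm (Real.exp _) M, mul_assoc, ← Real.exp_add]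
      congr 2
      ring

end Pool.Agent.W188.GLR
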