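import Mathlib
import Pool.Agent.W188.GLR.G2
import Pool.Agent.W188.GLR.G5
import Pool.Agent.H983R4.GL.F2
import Pool.Agent.H855R2.SF.Data

set_option autoImplicit false

open Complex Filter Topology Set Metric

namespace Pool.Agent.W188.GLR

open Pool.Agent.W188.Ray H855R2.SF

/-- the radius of the window -/
noncomputable def Rd (n : ℕ) (A Λ : ℝ) : ℝ := n * (3 * Wd (A * Λ) + 2)

lemma Rd_nonneg {n : ℕ} {A Λ : ℝ} (h : 1 ≤ A * Λ) : 0 ≤ Rd n A Λ := by
  unfold Rd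
  have := Wd_ge h
  positivity

lemma Rd_le {n : ℕ} {A Λ : ℝ} (hA : 1 ≤ A) (hΛ : 1 ≤ Λ) :
    Rd n A Λ ≤ n * (12 * (Real.log (68 * A) + Real.log Λ) + 2) := by
  unfold Rd Wd
  rw [← mul_assoc 68 A Λ, Real.log_mul (by positivity) (by positivity)]
  apply le_of_eq
  ring

/-- the radius is small -/
lemma ev_small (n : ℕ) {A : ℝ} (hA : 1 ≤ A) (K k : ℝ) (hk : 0 ≤ k) :
    ∀ᶠ Λ : ℝ in atTop, K + k * Real.log (1 + Rd n A Λ) ≤ Λ := by
  have h1 := Real.isLittleO_log_id_atTop.bound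
    (by positivity : (0 : ℝ) < 1 / (2 * (k * n * 12 + 1)))
  set K' : ℝ := K + k * (n * (12 * Real.log (68 * A) + 2)) with hK'
  filter_upwards [h1, eventually_ge_atTop 1, eventually_ge_atTop (2 * K')] with Λ h2 h3 h4
  have hlog : 0 ≤ Real.log Λ := Real.log_nonneg h3
  rw [id, Real.norm_of_nonneg hlog, Real.norm_of_nonneg (by linarith), div_mul_eq_mul_div, one_mul,
    le_div_iff₀ (by positivity)] at h2
  have hAΛ : 1 ≤ A * Λ := by nlinarith
  have h5 := Rd_nonneg (n := n) hAΛ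
  have h6 := Rd_le (n := n) hA h3
  have h7 : Real.log (1 + Rd n A Λ) ≤ Rd n A Λ := by
    have := Real.log_le_sub_one_of_pos (x := 1 + Rd n A Λ) (by linarith)
    linarith
  have h8 : k * Real.log (1 + Rd n A Λ) ≤
      k * (n * (12 * (Real.log (68 * A) + Real.log Λ) + 2)) :=
    mul_le_mul_of_nonneg_left (h7.trans h6) hk
  have e : k * (n * (12 * (Real.log (68 * A) + Real.log Λ) + 2)) =
      k * (n * (12 * Real.log (68 * A) + 2)) + k * n * 12 * Real.log Λ := by ring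
  have h9 : k * n * 12 * Real.log Λ ≤ Λ / 2 := by nlinarith
  linarith

variable {m : ℕ}

/-- lower bound for the local conductor -/
lemma cond_lower (hm : 1 ≤ m) {N : ℕ} (hN : 0 < N) {mu : Fin m → ℂ} (hmu : ∑ j, (mu j).im = 0)
    (T : ℝ) : (1 + |T|) * (N * ∏ j, (1 + ‖mu j‖)) ≤ QL N mu T ^ (m + 2) := by
  set P : ℝ := ∏ j, (1 + ‖mu j - T * I‖) with hP
  have hN1 : (1 : ℝ) ≤ N := by exact_mod_cast hN
  have hP1 : 1 ≤ P := by
    have : ∏ _j : Fin m, (1 : ℝ) ≤ P := by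
      apply Finset.prod_le_prod (fun _ _ => by norm_num)
      intro j _
      linarith [norm_nonneg (mu j - T * I)]
    simpa using this
  -- some parameter is far from `iT`
  have h1 : 1 + |T| ≤ P := by
    obtain ⟨j, hj⟩ : ∃ j : Fin m, |T| ≤ |(mu j).im - T| := by
      by_contra hcon
      push Not at hcon
      have h2 : ∑ j : Fin m, |(mu j).im - T| < ∑ _j : Fin m, |T| := by
        apply Finset.sum_lt_sum_of_nonempty
        · exact ⟨⟨0, by omega⟩, Finset.mem_univ _⟩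
        · intro j _; exact hcon j
      have h3 : |∑ j : Fin m, ((mu j).im - T)| ≤ ∑ j : Fin m, |(mu j).im - T| :=
        Finset.abs_sum_le_sum_abs _ _
      rw [Finset.sum_sub_distrib, hmu, zero_sub, abs_neg] at h3
      rw [Finset.sum_const, Finset.card_univ, Fintype.card_fin, nsmul_eq_mul] at h2
      rw [Finset.sum_const, Finset.card_univ, Fintype.card_fin, nsmul_eq_mul, abs_mul,
        abs_of_nonneg (Nat.cast_nonneg m : (0 : ℝ) ≤ m)] at h3
      linarith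
    have h2 : 1 + ‖mu j - T * I‖ ≤ P := by
      rw [hP, ← Finset.mul_prod_erase _ _ (Finset.mem_univ j)]
      apply le_mul_of_one_le_right (by positivity)
      have : ∏ _j ∈ Finset.univ.erase j, (1 : ℝ) ≤ ∏ i ∈ Finset.univ.erase j, (1 + ‖mu i - T * I‖) := by
        apply Finset.prod_le_prod (fun _ _ => by norm_num)
        intro i _
        linarith [norm_nonneg (mu i - T * I)]
      simpa using this
    have h3 : |(mu j).im - T| ≤ ‖mu j - T * I‖ := by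
      have := abs_im_le_norm (mu j - T * I)
      simpa using this
    linarith
  have h2 : ∏ j, (1 + ‖mu j‖) ≤ P * (1 + |T|) ^ m := by
    have e : (1 + |T|) ^ m = ∏ _j : Fin m, (1 + |T|) := by simp
    rw [e, hP, ← Finset.prod_mul_distrib]
    apply Finset.prod_le_prod (fun _ _ => by positivity)
    intro j _
    have h3 : ‖mu j‖ ≤ ‖mu j - T * I‖ + |T| := by
      have h4 : mu j = (mu j - T * I) + T * I := by ring
      calc ‖mu j‖ = ‖(mu j - T * I) + T * I‖ := by rw [← h4]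
        _ ≤ ‖mu j - T * I‖ + ‖(T : ℂ) * I‖ := norm_add_le _ _
        _ = _ := by rw [norm_mul, Complex.norm_real, Real.norm_eq_abs, norm_I, mul_one]
    nlinarith [norm_nonneg (mu j - T * I), abs_nonneg T,
      mul_nonneg (norm_nonneg (mu j - T * I)) (abs_nonneg T)]
  have h3 : (1 + |T|) ^ m ≤ P ^ m := pow_le_pow_left₀ (by positivity) h1 m
  have h4 : ∏ j, (1 + ‖mu j‖) ≤ P ^ (m + 1) := by
    refine h2.trans ?_
    rw [pow_succ, mul_comm]
    exact mul_le_mul_of_nonneg_right h3 (by linarith)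
  unfold QL
  rw [← hP, mul_pow]
  have h5 : (N : ℝ) ≤ N ^ (m + 2) := le_self_pow₀ hN1 (by omega)
  calc (1 + |T|) * (N * ∏ j, (1 + ‖mu j‖)) ≤ P * (N * P ^ (m + 1)) := by gcongr
    _ = N * P ^ (m + 2) := by ring
    _ ≤ _ := mul_le_mul_of_nonneg_right h5 (by positivity)

/-- the data of a family of L-functions of degree `m` -/
structure GLData {ι : Type*} (m : ℕ) (N : ι → ℕ) (mu : ι → Fin m → ℂ) (f : ι → ℂ → ℂ)
    (X : ι → ℝ → ℝ) (δ : ℝ) : Prop where
  hm : 1 ≤ m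
  hδ : 0 < δ
  N_pos : ∀ i, 0 < N i
  gap : ∀ i j, (mu i j).re ≤ 1 / 2 - δ
  im_sum : ∀ i, ∑ j, (mu i j).im = 0
  entire : ∀ i, Differentiable ℂ (f i)
  order : ∀ i, ∃ A : ℝ, ∀ s : ℂ, -1 / 4 ≤ s.re → s.re ≤ 5 / 4 →
    ‖f i s‖ ≤ Real.exp (A * (1 + |s.im|) ^ A)
  fe : ∀ i, ∃ root : ℂ, ‖root‖ = 1 ∧ ∀ s : ℂ,
    f i s * ∏ j, (Complex.Gammaℝ (1 - s - (starRingEnd ℂ) (mu i j)))⁻¹ =
      root * (N i : ℂ) ^ (1 / 2 - s) * (starRingEnd ℂ) (f i (1 - (starRingEnd ℂ) s)) *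
        ∏ j, (Complex.Gammaℝ (s - mu i j))⁻¹
  molteni : ∀ ε : ℝ, 0 < ε → ∃ B : ℝ, ∀ (i : ι) (s : ℂ),
    1 + ε ≤ s.re → ‖f i s‖ ≤ B * (N i * ∏ j, (1 + ‖mu i j‖)) ^ ε
  X1 : ∀ i T, 1 ≤ X i T
  Xle : ∀ i T, X i T ≤ (1 + |T|) * (N i * ∏ j, (1 + ‖mu i j‖))
  Xge : ∀ i T, (1 + |T|) * (N i * ∏ j, (1 + ‖mu i j‖)) ≤ 2 * X i T
  Xsh : ∀ i t u, X i (t + u) ≤ (1 + |u|) * X i t

variable {ι : Type*} {N : ι → ℕ} {mu : ι → Fin m → ℂ} {f : ι → ℂ → ℂ} {X : ι → ℝ → ℝ} {δ : ℝ}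

lemma GLData.C1 (H : GLData m N mu f X δ) (i : ι) : 1 ≤ (N i : ℝ) * ∏ j, (1 + ‖mu i j‖) := by
  have := cond_one_le (H.N_pos i) (mu i) 0
  simpa using this

theorem GLData.afam (H : GLData m N mu f X δ) :
    AFam (m : ℝ) f (fun i t => ((1 + |t|) * (N i * ∏ j, (1 + ‖mu i j‖))) ^ (m : ℝ)) where
  m0 := by positivity
  Q1 := by
    intro i t
    refine Real.one_le_rpow ?_ (by positivity)
    have h1 := H.C1 i
    nlinarith [abs_nonneg t]
  Qs := by
    intro i t u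
    have h1 := H.C1 i
    have h2 : 1 + |t + u| ≤ (1 + |u|) * (1 + |t|) := by
      have := abs_add_le t u
      nlinarith [abs_nonneg t, abs_nonneg u, mul_nonneg (abs_nonneg t) (abs_nonneg u)]
    rw [← Real.mul_rpow (by positivity) (by positivity)]
    refine Real.rpow_le_rpow (by positivity) ?_ (by positivity)
    calc (1 + |t + u|) * (N i * ∏ j, (1 + ‖mu i j‖)) ≤
          ((1 + |u|) * (1 + |t|)) * (N i * ∏ j, (1 + ‖mu i j‖)) :=
          mul_le_mul_of_nonneg_right h2 (by linarith)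
      _ = _ := by ring
  diff := H.entire
  order := H.order
  right := by
    intro δ hδ
    obtain ⟨B, hB⟩ := H.molteni δ hδ
    refine ⟨|B|, fun i s hs => ?_⟩
    have h1 := H.C1 i
    refine (hB i s hs).trans ?_
    have h2 : (N i : ℝ) * ∏ j, (1 + ‖mu i j‖) ≤ (1 + |s.im|) * (N i * ∏ j, (1 + ‖mu i j‖)) := by
      nlinarith [abs_nonneg s.im]
    have h3 : (N i : ℝ) * ∏ j, (1 + ‖mu i j‖) ≤
        ((1 + |s.im|) * (N i * ∏ j, (1 + ‖mu i j‖))) ^ (m : ℝ) := by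
      refine h2.trans ?_
      conv_lhs => rw [← Real.rpow_one ((1 + |s.im|) * (N i * ∏ j, (1 + ‖mu i j‖)))]
      exact Real.rpow_le_rpow_of_exponent_le (by linarith) (by exact_mod_cast H.hm)
    calc B * (N i * ∏ j, (1 + ‖mu i j‖)) ^ δ ≤ |B| * (N i * ∏ j, (1 + ‖mu i j‖)) ^ δ :=
          mul_le_mul_of_nonneg_right (le_abs_self B) (Real.rpow_nonneg (by linarith) _)
      _ ≤ _ := mul_le_mul_of_nonneg_left (Real.rpow_le_rpow (by linarith) h3 hδ.le) (abs_nonneg B)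
  refl := by
    refine ⟨16 ^ m, by positivity, fun i x t hx0 hx1 => ?_⟩
    obtain ⟨root, hroot, hfe⟩ := H.fe i
    have h1 := H.C1 i
    have hmu : ∀ j, (mu i j).re < 1 / 2 := fun j => by linarith [H.gap i j, H.hδ]
    refine (refl_of_fe (H.N_pos i) (mu i) hmu hroot hfe (t := t) hx0 hx1).trans ?_
    refine mul_le_mul_of_nonneg_right ?_ (norm_nonneg _)
    refine mul_le_mul_of_nonneg_left ?_ (by positivity)
    refine Real.rpow_le_rpow (by positivity) ?_ hx0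
    have h2 := cond_shift (N i) (mu i) 0 t
    have e1 : (N i) * ∏ j, (1 + ‖(mu i) j - ((0 : ℝ) : ℂ) * Complex.I‖) =
        N i * ∏ j, (1 + ‖mu i j‖) := by simp
    rw [e1, zero_add] at h2
    refine h2.trans ?_
    rw [Real.mul_rpow (by positivity) (by linarith)]
    refine mul_le_mul_of_nonneg_left ?_ (by positivity)
    conv_lhs => rw [← Real.rpow_one (N i * ∏ j, (1 + ‖mu i j‖) : ℝ)]
    exact Real.rpow_le_rpow_of_exponent_le h1 (by exact_mod_cast H.hm)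

end Pool.Agent.W188.GLR
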