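import Mathlib
import Pool.Agent.W188.GLR.G6

set_option autoImplicit false

open Complex Filter Topology Set Metric

namespace Pool.Agent.W188.GLR

open Pool.Agent.W188.Ray H855R2.SF

variable {m : ℕ} {ι : Type*} {N : ι → ℕ} {mu : ι → Fin m → ℂ} {f : ι → ℂ → ℂ} {X : ι → ℝ → ℝ} {δ : ℝ}

/-- the local data exist at every height, uniformly in the family -/
theorem GLData.loc (H : GLData m N mu f X δ) : ∃ A d : ℝ, 1 ≤ A ∧ 0 < d ∧ d ≤ 1 / 2 ∧
    ∀ (n : ℕ) (ε : ℝ), 0 < ε → ∃ Λ₁ : ℝ, ∀ (i : ι) (T : ℝ), Λ₁ ≤ Real.log (X i T) →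
      ∃ (Y L : ℂ → ℂ) (G : ℝ), G ≤ Real.exp (ε * Real.log (X i T)) ∧
        Loc (f i) Y L T (Rd n A (Real.log (X i T))) (Real.log (X i T)) A d G := by
  have hδ := H.hδ
  set g : ℝ := min δ 1 with hg
  have hg0 : 0 < g := lt_min hδ one_pos
  have hg1 : g ≤ 1 := min_le_right _ _
  have hgδ : g ≤ δ := min_le_left _ _
  set d : ℝ := g / 2 with hd
  obtain ⟨Cc, hCc, hcr⟩ := Pool.Agent.H983R4.GL.crude H.afam
  obtain ⟨Cr, hCr, hre⟩ := H.afam.refl
  have hCd : 0 ≤ Cd (g / 4) := by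
    unfold Cd
    have := Z2_nonneg
    positivity
  set Kd : ℝ := m * (2 * Cd (g / 4) + 2) with hKd
  have hKd0 : 0 ≤ Kd := by positivity
  have hm0 : (0 : ℝ) ≤ m := Nat.cast_nonneg m
  set A : ℝ := 1 + 2 * m + Cr + Kd with hA
  have hA1 : 1 ≤ A := by linarith
  have hd0 : 0 < d := by positivity
  refine ⟨A, d, hA1, hd0, by rw [hd]; linarith, ?_⟩
  intro n ε hε
  set e0 : ℝ := min ε 1 with he0
  have he00 : 0 < e0 := lt_min hε one_pos
  have he01 : e0 ≤ 1 := min_le_right _ _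
  have he0ε : e0 ≤ ε := min_le_left _ _
  set e1 : ℝ := min (1 / 4) (e0 / 2) with he1
  have he10 : 0 < e1 := lt_min (by norm_num) (by positivity)
  have he11 : e1 ≤ 1 / 4 := min_le_left _ _
  have he12 : e1 ≤ e0 / 2 := min_le_right _ _
  obtain ⟨B, hB⟩ := H.molteni e1 he10
  -- the conditions on `Λ`
  have ev1 := ev_small n hA1 1 1 (by norm_num)
  have ev2 := ev_small n hA1 ((m + 2) * (2 / d + Kd)) ((m + 2) * m) (by positivity)
  have ev3 : ∀ᶠ Λ : ℝ in atTop, Real.log (2 * |B| + 1) ≤ e0 / 2 * Λ :=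
    (Filter.tendsto_id.const_mul_atTop (by positivity : 0 < e0 / 2)).eventually_ge_atTop _
  obtain ⟨Λ₁, hΛ₁⟩ := eventually_atTop.1 (((ev1.and ev2).and ev3).and
    ((eventually_ge_atTop (1 : ℝ)).and (eventually_ge_atTop (Real.log Cc))))
  refine ⟨Λ₁, fun i T hΛ => ?_⟩
  set Λ := Real.log (X i T) with hΛd
  obtain ⟨⟨⟨h1, h2⟩, h3⟩, h4, h5⟩ := hΛ₁ Λ hΛ
  have hX1 := H.X1 i T
  have hXp : 0 < X i T := by linarith
  have hXe : Real.exp Λ = X i T := Real.exp_log hXp
  have hy : 1 ≤ A * Λ := by nlinarith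
  have hR0 := Rd_nonneg (n := n) hy
  set R := Rd n A Λ with hR
  set ℓ := Real.log (1 + R) with hℓ
  have hℓ0 : 0 ≤ ℓ := Real.log_nonneg (by linarith)
  have hRe : 1 + R = Real.exp ℓ := (Real.exp_log (by linarith)).symm
  have hC1 := H.C1 i
  set C : ℝ := (N i : ℝ) * ∏ j, (1 + ‖mu i j‖) with hC
  have hNp := H.N_pos i
  have hXC : (1 + |T|) * C ≤ 2 * Real.exp Λ := by rw [hXe]; exact H.Xge i T
  have hle2 : (2 : ℝ) ≤ Real.exp 1 := by
    have := Real.exp_one_gt_d9
    linarith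
  -- the crude size of the conductor in the window
  have hsize : ∀ t : ℝ, |t - T| ≤ R → (1 + |t|) * C ≤ Real.exp (2 * Λ) := by
    intro t ht
    have a1 : 1 + |t| ≤ (1 + R) * (1 + |T|) := by
      have a2 : |t| ≤ |t - T| + |T| := by
        have := abs_add_le (t - T) T
        rwa [sub_add_cancel] at this
      nlinarith [abs_nonneg T, mul_nonneg hR0 (abs_nonneg T)]
    calc (1 + |t|) * C ≤ ((1 + R) * (1 + |T|)) * C := mul_le_mul_of_nonneg_right a1 (by linarith)
      _ = (1 + R) * ((1 + |T|) * C) := by ring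
      _ ≤ Real.exp ℓ * (2 * Real.exp Λ) := by rw [hRe]; gcongr
      _ ≤ Real.exp ℓ * (Real.exp 1 * Real.exp Λ) := by gcongr
      _ = Real.exp (ℓ + 1 + Λ) := by rw [← Real.exp_add, ← Real.exp_add]; congr 1; ring
      _ ≤ Real.exp (2 * Λ) := by apply Real.exp_le_exp.2; linarith
  have hQ : ∀ t : ℝ, |t - T| ≤ R → ((1 + |t|) * C) ^ (m : ℝ) ≤ Real.exp (2 * m * Λ) := by
    intro t ht
    calc ((1 + |t|) * C) ^ (m : ℝ) ≤ (Real.exp (2 * Λ)) ^ (m : ℝ) :=
          Real.rpow_le_rpow (by positivity) (hsize t ht) hm0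
      _ = Real.exp (2 * m * Λ) := by rw [← Real.exp_mul]; congr 1; ring
  -- the local conductor
  have hQLpos : ∀ t : ℝ, 0 < QL (N i) (mu i) t := by
    intro t
    have := cond_one_le hNp (mu i) t
    unfold QL
    linarith
  have hQLu : ∀ t : ℝ, |t - T| ≤ R → Real.log (QL (N i) (mu i) t) ≤ 2 * m * Λ := by
    intro t ht
    rw [Real.log_le_iff_le_exp (hQLpos t)]
    refine le_trans ?_ (hQ t ht)
    have a1 := cond_shift (N i) (mu i) 0 t
    have e1 : (N i : ℝ) * ∏ j, (1 + ‖mu i j - ((0 : ℝ) : ℂ) * I‖) = C := by rw [hC]; simp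
    rw [e1, zero_add] at a1
    rw [Real.mul_rpow (by positivity) (by linarith)]
    refine a1.trans (mul_le_mul_of_nonneg_left ?_ (by positivity))
    conv_lhs => rw [← Real.rpow_one C]
    exact Real.rpow_le_rpow_of_exponent_le hC1 (by exact_mod_cast H.hm)
  have hQLl : ∀ t : ℝ, |t - T| ≤ R → 2 / d + Kd ≤ Real.log (QL (N i) (mu i) t) := by
    intro t ht
    have a1 := cond_lower H.hm hNp (H.im_sum i) T
    have a2 : Λ ≤ (m + 2) * Real.log (QL (N i) (mu i) T) := by
      have a3 := Real.log_le_log hXp ((H.Xle i T).trans a1)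
      rw [Real.log_pow] at a3
      push_cast at a3
      exact a3
    have a4 := cond_shift (N i) (mu i) t (T - t)
    rw [add_sub_cancel] at a4
    have a5 : Real.log (QL (N i) (mu i) T) ≤ m * ℓ + Real.log (QL (N i) (mu i) t) := by
      have a6 : QL (N i) (mu i) T ≤ (1 + R) ^ (m : ℝ) * QL (N i) (mu i) t := by
        refine le_trans a4 ?_
        apply mul_le_mul_of_nonneg_right _ (hQLpos t).le
        apply Real.rpow_le_rpow (by positivity) _ hm0
        rw [abs_sub_comm]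
        linarith
      have a7 := Real.log_le_log (hQLpos T) a6
      rw [Real.log_mul (by positivity) (hQLpos t).ne', Real.log_rpow (by linarith)] at a7
      exact a7
    have hm2 : (0 : ℝ) < m + 2 := by linarith
    have a8 : (m + 2) * (2 / d + Kd) + (m + 2) * m * ℓ ≤
        (m + 2) * (m * ℓ + Real.log (QL (N i) (mu i) t)) :=
      h2.trans (a2.trans (mul_le_mul_of_nonneg_left a5 hm2.le))
    have a9 : (m + 2) * (2 / d + Kd) ≤ (m + 2) * Real.log (QL (N i) (mu i) t) := by linarith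
    exact le_of_mul_le_mul_left a9 hm2
  obtain ⟨root, hroot, hfe⟩ := H.fe i
  have hgap : ∀ j, (mu i j).re ≤ 1 / 2 - g := fun j => by linarith [H.gap i j]
  have hmu : ∀ j, (mu i j).re < 1 / 2 := fun j => by linarith [hgap j]
  have hLL : ∀ s : ℂ, |s.im - T| ≤ R → 1 / 2 ≤ s.re → s.re ≤ 1 / 2 + d →
      Reg (mu i) s ∧ 2 / d ≤ (LL (N i) (mu i) s).re ∧ ‖LL (N i) (mu i) s‖ ≤ A * Λ ∧
        2 / d ≤ Real.log (QL (N i) (mu i) s.im) - Kd := by
    intro s hs1 hs2 hs3
    obtain ⟨b1, b2, b3⟩ := LL_bounds hNp hg0 hgap hs2 (by rw [← hd]; exact hs3) (by linarith)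
    have b4 := hQLl s.im hs1
    have b5 := hQLu s.im hs1
    refine ⟨b1, by linarith, b3.trans ?_, by linarith⟩
    rw [hA]
    have : Kd ≤ Kd * Λ := le_mul_of_one_le_right hKd0 h4
    have : 0 ≤ Cr * Λ := by positivity
    nlinarith
  have hG1 : 1 ≤ Real.exp (e0 * Λ) := Real.one_le_exp (by positivity)
  refine ⟨XD (N i) (mu i) root, LL (N i) (mu i), Real.exp (e0 * Λ), ?_, ?_⟩
  · apply Real.exp_le_exp.2
    exact mul_le_mul_of_nonneg_right he0ε (by linarith)
  refine ⟨hd0, by rw [hd]; linarith, hy, hG1, ?_, H.entire i, ?_, ?_, ?_, ?_, ?_, ?_, ?_, ?_, ?_, ?_⟩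
  · apply Real.exp_le_exp.2
    exact mul_le_mul_of_nonneg_right (he01.trans hA1) (by linarith)
  · -- crude
    intro s hs h0 _
    have b1 := hcr i s (by linarith)
    refine b1.trans ?_
    have b2 : Cc ≤ Real.exp Λ := by
      rw [← Real.log_le_iff_le_exp (by linarith)]; exact h5
    calc Cc * ((1 + |s.im|) * C) ^ (m : ℝ) ≤ Real.exp Λ * Real.exp (2 * m * Λ) :=
          mul_le_mul b2 (hQ s.im hs) (by positivity) (Real.exp_pos _).le
      _ = Real.exp ((1 + 2 * m) * Λ) := by rw [← Real.exp_add]; congr 1; ring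
      _ ≤ _ := by
        apply Real.exp_le_exp.2
        exact mul_le_mul_of_nonneg_right (by rw [hA]; linarith) (by linarith)
  · -- right
    intro s hs h0
    have b1 := hB i s (by rw [h0]; linarith)
    refine b1.trans ?_
    have b2 : C ≤ Real.exp (2 * Λ) := by
      refine le_trans ?_ (hsize s.im hs)
      nlinarith [abs_nonneg s.im]
    have b2' : C ≤ 2 * Real.exp Λ := by
      refine le_trans ?_ hXC
      nlinarith [abs_nonneg T]
    have b3 : C ^ e1 ≤ 2 * Real.exp (e0 / 2 * Λ) := by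
      calc C ^ e1 ≤ (2 * Real.exp Λ) ^ e1 := Real.rpow_le_rpow (by linarith) b2' he10.le
        _ = 2 ^ e1 * Real.exp (Λ * e1) := by
          rw [Real.mul_rpow (by norm_num) (Real.exp_pos _).le, ← Real.exp_mul]
        _ ≤ 2 ^ (1 : ℝ) * Real.exp (e0 / 2 * Λ) := by
          apply mul_le_mul _ _ (Real.exp_pos _).le (by positivity)
          · exact Real.rpow_le_rpow_of_exponent_le (by norm_num) (by linarith)
          · apply Real.exp_le_exp.2
            rw [mul_comm Λ]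
            exact mul_le_mul_of_nonneg_right he12 (by linarith)
        _ = _ := by norm_num
    have b4 : 2 * |B| + 1 ≤ Real.exp (e0 / 2 * Λ) := by
      rw [← Real.log_le_iff_le_exp (by positivity)]; exact h3
    calc B * C ^ e1 ≤ |B| * C ^ e1 :=
          mul_le_mul_of_nonneg_right (le_abs_self B) (Real.rpow_nonneg (by linarith) _)
      _ ≤ |B| * (2 * Real.exp (e0 / 2 * Λ)) := mul_le_mul_of_nonneg_left b3 (abs_nonneg B)
      _ = 2 * |B| * Real.exp (e0 / 2 * Λ) := by ring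
      _ ≤ Real.exp (e0 / 2 * Λ) * Real.exp (e0 / 2 * Λ) :=
          mul_le_mul_of_nonneg_right (by linarith) (Real.exp_pos _).le
      _ = Real.exp (e0 * Λ) := by rw [← Real.exp_add]; congr 1; ring
  · -- reflection
    intro x t ht hx0 hx1
    have b1 := hre i x t hx0 (by linarith)
    have e1 : (⟨1 / 2 - x, t⟩ : ℂ) = 1 / 2 - x + t * I := by apply Complex.ext <;> simp
    have e2 : (⟨1 / 2 + x, t⟩ : ℂ) = 1 / 2 + x + t * I := by apply Complex.ext <;> simp
    rw [e1, e2] at b1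
    refine b1.trans (mul_le_mul_of_nonneg_right ?_ (norm_nonneg _))
    have b2 : (((1 + |t|) * C) ^ (m : ℝ)) ^ x ≤ Real.exp (2 * m * Λ * x) := by
      calc (((1 + |t|) * C) ^ (m : ℝ)) ^ x ≤ (Real.exp (2 * m * Λ)) ^ x :=
            Real.rpow_le_rpow (by positivity) (hQ t ht) hx0
        _ = _ := by rw [← Real.exp_mul]
    have b3 : Cr ≤ Real.exp Cr := by linarith [Real.add_one_le_exp Cr]
    calc Cr * (((1 + |t|) * C) ^ (m : ℝ)) ^ x ≤ Real.exp Cr * Real.exp (2 * m * Λ * x) :=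
          mul_le_mul b3 b2 (by positivity) (Real.exp_pos _).le
      _ = Real.exp (Cr + 2 * m * (x * Λ)) := by rw [← Real.exp_add]; congr 1; ring
      _ ≤ _ := by
        apply Real.exp_le_exp.2
        have b4 : 0 ≤ x * Λ := by positivity
        have b5 : Cr ≤ A := by rw [hA]; linarith
        have b6 : 2 * m * (x * Λ) ≤ A * (x * Λ) :=
          mul_le_mul_of_nonneg_right (by rw [hA]; linarith) b4
        linarith
  · intro s hs h0 h1
    exact hasDerivAt_XD hNp root (hLL s hs h0 h1).1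
  · intro s hs h0 h1
    have b1 := hLL s hs h0 h1
    have b2 := norm_XD_le hNp hg0 hgap hroot h0 (by rw [← hd]; exact h1) (by linarith) b1.2.2.2
    refine b2.trans ?_
    rw [Real.exp_le_one_iff, neg_nonpos]
    have : 0 < 2 / d := by positivity
    exact mul_nonneg this.le (by linarith)
  · intro s hs h0 h1
    have b1 := hLL s hs (by linarith) h1
    have b2 := norm_XD_le hNp hg0 hgap hroot (by linarith : 1 / 2 ≤ s.re) (by rw [← hd]; exact h1)
      (by linarith) b1.2.2.2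
    refine b2.trans ?_
    have b3 : 1 ≤ 2 / d * (s.re - 1 / 2) := by
      calc (1 : ℝ) = 2 / d * (d / 2) := by field_simp
        _ ≤ _ := mul_le_mul_of_nonneg_left (by linarith) (by positivity)
    calc Real.exp (-(2 / d * (s.re - 1 / 2))) ≤ Real.exp (-1) := Real.exp_le_exp.2 (by linarith)
      _ ≤ 1 / 2 := by
        rw [Real.exp_neg, inv_le_comm₀ (Real.exp_pos _) (by norm_num)]
        linarith
  · intro t ht
    exact norm_XD_line hNp hmu hroot (by simp)
  · intro t ht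
    have b1 := fe_XD hfe (reg_line hmu (s := cp t) (by simp))
    have e : 1 - (starRingEnd ℂ) (cp t) = cp t := by
      apply Complex.ext
      · simp; norm_num
      · simp
    rwa [e] at b1
  · intro t ht
    exact LL_line_im hmu (by simp)
  · intro t ht
    have b1 := hLL (cp t) (by simpa using ht) (by simp) (by simp; linarith)
    refine ⟨?_, (re_le_norm _).trans b1.2.2.1⟩
    have b2 : 1 ≤ 2 / d := by rw [le_div_iff₀ hd0]; linarith
    linarith [b1.2.1]

/-- the main inequality for a family -/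
theorem GLData.ineq (H : GLData m N mu f X δ) {ε : ℝ} (hε : 0 < ε) : ∃ K X₀ : ℝ, 0 < K ∧ 1 < X₀ ∧
    ∀ (i : ι) (T : ℝ), X₀ ≤ X i T → ∀ u : ℂ, ‖u‖ = 1 → ∀ M : ℝ, 1 ≤ M →
      (∀ v r : ℝ, |v - T| ≤ K * Real.log (3 + Real.log (X i T)) →
        f i (1 / 2 + v * I) = r * u → r ≤ M) →
      ‖f i (1 / 2 + T * I)‖ ≤ M * X i T ^ ε := by
  obtain ⟨A, d, hA, hd, hd1, hloc⟩ := H.loc
  obtain ⟨n, ε₀, Λ₀, hε₀, hΛ₀, hmain⟩ := main hA hd hd1 hε
  obtain ⟨Λ₁, hΛ₁⟩ := hloc n ε₀ hε₀
  set K : ℝ := n * (12 * (Real.log (68 * A) + 1) + 2) + 1 with hK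
  have hlA : 0 ≤ Real.log (68 * A) := Real.log_nonneg (by linarith)
  have hK0 : 0 < K := by positivity
  refine ⟨K, Real.exp (max 1 (max Λ₀ Λ₁)), hK0, Real.one_lt_exp_iff.2 (lt_of_lt_of_le one_pos
    (le_max_left _ _)), ?_⟩
  intro i T hX u hu M hM h
  have hX1 := H.X1 i T
  have hXp : 0 < X i T := by linarith
  have hΛ : max 1 (max Λ₀ Λ₁) ≤ Real.log (X i T) := by
    rw [Real.le_log_iff_exp_le hXp]; exact hX
  have hΛa : 1 ≤ Real.log (X i T) := (le_max_left _ _).trans hΛ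
  have hΛb : Λ₀ ≤ Real.log (X i T) := ((le_max_left _ _).trans (le_max_right _ _)).trans hΛ
  have hΛc : Λ₁ ≤ Real.log (X i T) := ((le_max_right _ _).trans (le_max_right _ _)).trans hΛ
  obtain ⟨Y, L, G, hG, hL⟩ := hΛ₁ i T hΛc
  have h1 := hmain (f i) Y L T _ _ G hL hG hΛb le_rfl u hu M hM (by
    intro v r hv hr
    refine h v r (hv.trans ?_) hr
    have h2 := Rd_le (n := n) hA hΛa
    unfold Rd at h2
    refine h2.trans ?_
    have h3 : Real.log (Real.log (X i T)) ≤ Real.log (3 + Real.log (X i T)) :=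
      Real.log_le_log (by linarith) (by linarith)
    have h4 : 1 ≤ Real.log (3 + Real.log (X i T)) := by
      rw [Real.le_log_iff_exp_le (by linarith)]
      have := Real.exp_one_lt_d9
      linarith
    set l := Real.log (3 + Real.log (X i T)) with hl
    have h5 : 12 * (Real.log (68 * A) + Real.log (Real.log (X i T))) + 2 ≤
        (12 * (Real.log (68 * A) + 1) + 2) * l := by nlinarith
    have hn : (0 : ℝ) ≤ n := Nat.cast_nonneg n
    calc (n : ℝ) * (12 * (Real.log (68 * A) + Real.log (Real.log (X i T))) + 2) ≤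
          n * ((12 * (Real.log (68 * A) + 1) + 2) * l) := mul_le_mul_of_nonneg_left h5 hn
      _ ≤ K * l := by rw [hK]; nlinarith)
  rw [Real.rpow_def_of_pos hXp, mul_comm (Real.log _) ε]
  exact h1

end Pool.Agent.W188.GLR
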