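import Mathlib
import Pool.Agent.W188.GLR.G7
import Pool.Agent.H855R2.SF.Dir

/-!
Consequences of `GLData.ineq`, and the two instances of `GLData`.
-/

set_option autoImplicit false

open Complex Filter Topology Set Metric

namespace Pool.Agent.W188.GLR

open Pool.Agent.W188.Ray H855R2.SF H370.DL H429.GP

variable {m : ℕ} {ι : Type} {N : ι → ℕ} {mu : ι → Fin m → ℂ} {f : ι → ℂ → ℂ} {X : ι → ℝ → ℝ} {δ : ℝ}

/-- large values propagate to all directions -/
theorem GLData.directions (H : GLData m N mu f X δ) {ε : ℝ} (hε : 0 < ε) : ∃ K X₀ : ℝ,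
    0 < K ∧ 1 < X₀ ∧ ∀ (i : ι) (T : ℝ), X₀ ≤ X i T → X i T ^ ε ≤ ‖f i (1 / 2 + T * I)‖ →
      ∀ u : ℂ, ‖u‖ = 1 → ∃ v r : ℝ, |v - T| ≤ K * Real.log (3 + Real.log (X i T)) ∧
        f i (1 / 2 + v * I) = r * u ∧ ‖f i (1 / 2 + T * I)‖ ≤ X i T ^ ε * r := by
  obtain ⟨K, X₀, hK, hX₀, h⟩ := H.ineq (half_pos hε)
  refine ⟨K, X₀, hK, hX₀, fun i T hX hL u hu => ?_⟩
  by_contra hcon
  push Not at hcon
  have hXp : 0 < X i T := by linarith
  have hX1 : 1 < X i T := by linarith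
  have hXe : 0 < X i T ^ ε := Real.rpow_pos_of_pos hXp _
  have h1 := h i T hX u hu (‖f i (1 / 2 + T * I)‖ / X i T ^ ε) (by rwa [one_le_div hXe])
    (fun v r hv hr => by
      rw [le_div_iff₀ hXe]
      have := hcon v r hv hr
      linarith)
  have hL0 : 0 < ‖f i (1 / 2 + T * I)‖ := lt_of_lt_of_le hXe hL
  have h2 : X i T ^ ε = X i T ^ (ε / 2) * X i T ^ (ε / 2) := by
    rw [← Real.rpow_add hXp]; ring_nf
  have hXh : 0 < X i T ^ (ε / 2) := Real.rpow_pos_of_pos hXp _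
  rw [h2] at h1
  have h3 : ‖f i (1 / 2 + T * I)‖ / (X i T ^ (ε / 2) * X i T ^ (ε / 2)) * X i T ^ (ε / 2) =
      ‖f i (1 / 2 + T * I)‖ / X i T ^ (ε / 2) := by
    field_simp
  rw [h3, le_div_iff₀ hXh] at h1
  have h4 : 1 < X i T ^ (ε / 2) := Real.one_lt_rpow hX1 (half_pos hε)
  nlinarith

/-- bounds at the values on one ray give bounds, pointwise in the family -/
theorem GLData.points (H : GLData m N mu f X δ) {κ : ℝ} (hκ : 0 ≤ κ) (S : Set (ι × ℝ))
    (u : ι → ℝ → ℂ) (hu : ∀ i T, ‖u i T‖ = 1)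
    (h : ∀ ε : ℝ, 0 < ε → ∀ K : ℝ, ∃ B : ℝ, ∀ (i : ι) (T : ℝ), (i, T) ∈ S → ∀ v r : ℝ,
      |v - T| ≤ K * Real.log (3 + Real.log (X i T)) → f i (1 / 2 + v * I) = r * u i T →
        r ≤ B * X i T ^ (κ + ε)) :
    ∀ ε : ℝ, 0 < ε → ∃ B : ℝ, ∀ (i : ι) (T : ℝ), (i, T) ∈ S →
      ‖f i (1 / 2 + T * I)‖ ≤ B * X i T ^ (κ + ε) := by
  intro ε hε
  obtain ⟨K, X₀, hK, hX₀, hin⟩ := H.ineq (half_pos hε)
  obtain ⟨B, hB⟩ := h (ε / 2) (half_pos hε) K
  obtain ⟨C, hC, hcr⟩ := Pool.Agent.H983R4.GL.crude H.afam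
  refine ⟨(|B| + 1) + C * (2 * X₀) ^ (m : ℝ), fun i T hiT => ?_⟩
  have hX1 := H.X1 i T
  have hXp : 0 < X i T := by linarith
  have hXk : 1 ≤ X i T ^ (κ + ε) := Real.one_le_rpow hX1 (by linarith)
  have hm0 : 0 ≤ C * (2 * X₀) ^ (m : ℝ) := by positivity
  rcases le_or_gt X₀ (X i T) with hX | hX
  · have hXk2 : 1 ≤ X i T ^ (κ + ε / 2) := Real.one_le_rpow hX1 (by linarith)
    have h1 := hin i T hX (u i T) (hu i T) ((|B| + 1) * X i T ^ (κ + ε / 2))
      (by nlinarith [abs_nonneg B]) (fun v r hv hr => by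
        refine (hB i T hiT v r hv hr).trans ?_
        exact mul_le_mul_of_nonneg_right (by linarith [le_abs_self B]) (by linarith))
    rw [mul_assoc, ← Real.rpow_add hXp, show κ + ε / 2 + ε / 2 = κ + ε by ring] at h1
    refine h1.trans ?_
    exact mul_le_mul_of_nonneg_right (by linarith) (by linarith)
  · have h1 := hcr i (1 / 2 + T * I) (by simp; norm_num)
    have e : ((1 / 2 + T * I : ℂ)).im = T := by simp
    rw [e] at h1
    have h2 : ((1 + |T|) * (N i * ∏ j, (1 + ‖mu i j‖))) ^ (m : ℝ) ≤ (2 * X₀) ^ (m : ℝ) := by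
      have h3 := H.Xge i T
      have h4 := H.C1 i
      refine Real.rpow_le_rpow ?_ (by linarith) (by positivity)
      have := abs_nonneg T
      positivity
    calc ‖f i (1 / 2 + T * I)‖ ≤ C * (2 * X₀) ^ (m : ℝ) :=
          h1.trans (mul_le_mul_of_nonneg_left h2 (by linarith))
      _ ≤ ((|B| + 1) + C * (2 * X₀) ^ (m : ℝ)) * 1 := by linarith [abs_nonneg B]
      _ ≤ _ := mul_le_mul_of_nonneg_left hXk (by positivity)

/-- `1 + K log (3 + log x) = O(x^η)` -/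
lemma loglog_le {K η : ℝ} (hη : 0 < η) : ∃ C : ℝ, 1 ≤ C ∧ ∀ x : ℝ, 1 ≤ x →
    1 + |K| * Real.log (3 + Real.log x) ≤ C * x ^ η := by
  refine ⟨1 + |K| * (2 + 1 / η), ?_, fun x hx => ?_⟩
  · have : 0 ≤ |K| * (2 + 1 / η) := by positivity
    linarith
  · have hl : 0 ≤ Real.log x := Real.log_nonneg hx
    have hxη : 1 ≤ x ^ η := Real.one_le_rpow hx hη.le
    have h1 : Real.log (3 + Real.log x) ≤ 2 + Real.log x := by
      have := Real.log_le_sub_one_of_pos (x := 3 + Real.log x) (by linarith)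
      linarith
    have h2 : Real.log x ≤ x ^ η / η := Real.log_le_rpow_div (by linarith) hη
    have h3 : 2 + Real.log x ≤ (2 + 1 / η) * x ^ η := by
      have : x ^ η / η = 1 / η * x ^ η := by ring
      nlinarith
    have h4 : |K| * Real.log (3 + Real.log x) ≤ |K| * ((2 + 1 / η) * x ^ η) :=
      mul_le_mul_of_nonneg_left (h1.trans h3) (abs_nonneg K)
    calc 1 + |K| * Real.log (3 + Real.log x) ≤ x ^ η + |K| * ((2 + 1 / η) * x ^ η) := by linarith
      _ = _ := by ring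

/-- the exponent is attained on each ray -/
theorem GLData.ray_iff (H : GLData m N mu f X δ) {κ : ℝ} (hκ : 0 ≤ κ) (u : ι → ℂ)
    (hu : ∀ i, ‖u i‖ = 1) :
    (∀ ε : ℝ, 0 < ε → ∃ B : ℝ, ∀ (i : ι) (T : ℝ),
      ‖f i (1 / 2 + T * I)‖ ≤ B * X i T ^ (κ + ε)) ↔
    (∀ ε : ℝ, 0 < ε → ∃ B : ℝ, ∀ (i : ι) (v r : ℝ), f i (1 / 2 + v * I) = r * u i →
      r ≤ B * X i v ^ (κ + ε)) := by
  constructor
  · intro h ε hε
    obtain ⟨B, hB⟩ := h ε hε
    refine ⟨B, fun i v r hr => ?_⟩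
    have h1 := hB i v
    rw [hr, norm_mul, hu i, mul_one, Complex.norm_real, Real.norm_eq_abs] at h1
    exact (le_abs_self r).trans h1
  · intro h
    have key := H.points hκ univ (fun i _ => u i) (fun i _ => hu i) (by
      intro ε hε K
      obtain ⟨B, hB⟩ := h (ε / 2) (half_pos hε)
      set a : ℝ := κ + ε / 2 with ha
      have ha0 : 0 < a := by positivity
      obtain ⟨C, hC, hCC⟩ := loglog_le (K := K) (η := ε / 2 / a) (by positivity)
      refine ⟨|B| * C ^ a, fun i T _ v r hv hr => ?_⟩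
      have hX1 := H.X1 i T
      have hXp : 0 < X i T := by linarith
      have hlog : 0 ≤ Real.log (3 + Real.log (X i T)) :=
        Real.log_nonneg (by linarith [Real.log_nonneg hX1])
      have h1 : X i v ≤ C * X i T ^ (ε / 2 / a) * X i T := by
        have h2 := H.Xsh i T (v - T)
        rw [show T + (v - T) = v by ring] at h2
        refine h2.trans (mul_le_mul_of_nonneg_right ?_ hXp.le)
        refine le_trans ?_ (hCC _ hX1)
        have h3 : K * Real.log (3 + Real.log (X i T)) ≤ |K| * Real.log (3 + Real.log (X i T)) :=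
          mul_le_mul_of_nonneg_right (le_abs_self K) hlog
        linarith
      have hXv := H.X1 i v
      calc r ≤ B * X i v ^ a := hB i v r hr
        _ ≤ |B| * X i v ^ a := mul_le_mul_of_nonneg_right (le_abs_self B)
            (Real.rpow_nonneg (by linarith) _)
        _ ≤ |B| * (C * X i T ^ (ε / 2 / a) * X i T) ^ a :=
            mul_le_mul_of_nonneg_left (Real.rpow_le_rpow (by linarith) h1 ha0.le) (abs_nonneg B)
        _ = |B| * C ^ a * X i T ^ (κ + ε) := by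
            have e : X i T ^ (κ + ε) = X i T ^ (ε / 2) * X i T ^ a := by
              rw [← Real.rpow_add hXp, show κ + ε = ε / 2 + a by rw [ha]; ring]
            rw [Real.mul_rpow (by positivity) hXp.le, Real.mul_rpow (by linarith) (by positivity),
              ← Real.rpow_mul hXp.le, div_mul_cancel₀ _ ha0.ne', e]
            ring)
    intro ε hε
    obtain ⟨B, hB⟩ := key ε hε
    exact ⟨B, fun i T => hB i T (mem_univ _)⟩

/-- families of `L`-functions of degree `m`, with `X = (1 + |T|) C` -/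
theorem GLData.of_gl {δ : ℝ} (hm : 1 ≤ m) (hδ : 0 < δ) (N_pos : ∀ i, 0 < N i)
    (gap : ∀ i j, (mu i j).re ≤ 1 / 2 - δ)
    (im_sum : ∀ i, ∑ j, (mu i j).im = 0)
    (entire : ∀ i, Differentiable ℂ (f i))
    (order : ∀ i, ∃ A : ℝ, ∀ s : ℂ, -1 / 4 ≤ s.re → s.re ≤ 5 / 4 →
      ‖f i s‖ ≤ Real.exp (A * (1 + |s.im|) ^ A))
    (fe : ∀ i, ∃ root : ℂ, ‖root‖ = 1 ∧ ∀ s : ℂ,
      f i s * ∏ j, (Complex.Gammaℝ (1 - s - (starRingEnd ℂ) (mu i j)))⁻¹ =
        root * (N i : ℂ) ^ (1 / 2 - s) * (starRingEnd ℂ) (f i (1 - (starRingEnd ℂ) s)) *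
          ∏ j, (Complex.Gammaℝ (s - mu i j))⁻¹)
    (molteni : ∀ ε : ℝ, 0 < ε → ∃ B : ℝ, ∀ (i : ι) (s : ℂ),
      1 + ε ≤ s.re → ‖f i s‖ ≤ B * (N i * ∏ j, (1 + ‖mu i j‖)) ^ ε) :
    GLData m N mu f (fun i T => (1 + |T|) * (N i * ∏ j, (1 + ‖mu i j‖))) δ where
  hm := hm
  hδ := hδ
  N_pos := N_pos
  gap := gap
  im_sum := im_sum
  entire := entire
  order := order
  fe := fe
  molteni := molteni
  X1 := by
    intro i T
    have h := cond_one_le (N_pos i) (mu i) 0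
    have h1 : 1 ≤ (N i : ℝ) * ∏ j, (1 + ‖mu i j‖) := by simpa using h
    nlinarith [abs_nonneg T]
  Xle := fun i T => le_rfl
  Xge := by
    intro i T
    have : 0 ≤ (1 + |T|) * (N i * ∏ j, (1 + ‖mu i j‖)) := by positivity
    linarith
  Xsh := by
    intro i t u
    have h0 : 0 ≤ (N i : ℝ) * ∏ j, (1 + ‖mu i j‖) := by positivity
    have h2 : 1 + |t + u| ≤ (1 + |u|) * (1 + |t|) := by
      have := abs_add_le t u
      nlinarith [abs_nonneg t, abs_nonneg u, mul_nonneg (abs_nonneg t) (abs_nonneg u)]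
    calc (1 + |t + u|) * (N i * ∏ j, (1 + ‖mu i j‖)) ≤
          ((1 + |u|) * (1 + |t|)) * (N i * ∏ j, (1 + ‖mu i j‖)) :=
          mul_le_mul_of_nonneg_right h2 h0
      _ = _ := by ring

/-- primitive Dirichlet characters, with `X = q (1 + |T|)` -/
theorem GLData.of_dir {q : ι → ℕ} [∀ i, NeZero (q i)] {χ : (i : ι) → DirichletCharacter ℂ (q i)}
    (h : ∀ i, 1 < q i ∧ (χ i).IsPrimitive) :
    GLData 1 q (fun i _ => -aa (χ i)) (fun i => DirichletCharacter.LFunction (χ i))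
      (fun i T => (q i : ℝ) * (1 + |T|)) (1 / 2) where
  hm := le_rfl
  hδ := by norm_num
  N_pos := fun i => by linarith [(h i).1]
  gap := by
    intro i j
    have := aa_re_nonneg (χ := χ i)
    simp only [neg_re]
    linarith
  im_sum := by
    intro i
    simp [aa_im]
  entire := fun i => DirichletCharacter.differentiable_LFunction (ne_one_of_prim (h i).1 (h i).2)
  order := fun i => order_dir (h i).1 (h i).2
  fe := fun i => ⟨DirichletCharacter.rootNumber (χ i), norm_rootNumber (h i).2,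
    fe_dir (h i).1 (h i).2⟩
  molteni := by
    intro ε hε
    refine ⟨∑' n : ℕ, 1 / (n : ℝ) ^ (1 + ε), fun i s hs => ?_⟩
    have h0 : 0 ≤ ∑' n : ℕ, 1 / (n : ℝ) ^ (1 + ε) := tsum_nonneg fun n => by positivity
    refine (right_dir hε hs).trans ?_
    apply le_mul_of_one_le_right h0
    apply Real.one_le_rpow _ hε.le
    have h1 : (1:ℝ) ≤ q i := by exact_mod_cast (h i).1.le
    have h2 : 1 ≤ ∏ j : Fin 1, (1 + ‖(fun _ : Fin 1 => -aa (χ i)) j‖) := by
      simp
    nlinarith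
  X1 := by
    intro i T
    have h1 : (1:ℝ) ≤ q i := by exact_mod_cast (h i).1.le
    nlinarith [abs_nonneg T]
  Xle := by
    intro i T
    have h1 : (0:ℝ) ≤ q i := Nat.cast_nonneg _
    have h2 : 1 ≤ ∏ j : Fin 1, (1 + ‖(fun _ : Fin 1 => -aa (χ i)) j‖) := by
      simp
    calc (q i : ℝ) * (1 + |T|) = (1 + |T|) * (q i * 1) := by ring
      _ ≤ _ := by gcongr
  Xge := by
    intro i T
    have h1 : (0:ℝ) ≤ q i := Nat.cast_nonneg _
    have h2 : ‖aa (χ i)‖ ≤ 1 := by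
      unfold aa
      split_ifs <;> simp
    have h3 : ∏ j : Fin 1, (1 + ‖(fun _ : Fin 1 => -aa (χ i)) j‖) ≤ 2 := by
      simp
      linarith
    calc (1 + |T|) * ((q i : ℝ) * ∏ j : Fin 1, (1 + ‖(fun _ : Fin 1 => -aa (χ i)) j‖)) ≤
          (1 + |T|) * (q i * 2) := by gcongr
      _ = _ := by ring
  Xsh := by
    intro i t u
    have h0 : 0 ≤ (q i : ℝ) := Nat.cast_nonneg _
    have h2 : 1 + |t + u| ≤ (1 + |u|) * (1 + |t|) := by
      have := abs_add_le t u
      nlinarith [abs_nonneg t, abs_nonneg u, mul_nonneg (abs_nonneg t) (abs_nonneg u)]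
    calc (q i : ℝ) * (1 + |t + u|) ≤ q i * ((1 + |u|) * (1 + |t|)) :=
          mul_le_mul_of_nonneg_left h2 h0
      _ = _ := by ring

end Pool.Agent.W188.GLR
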